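import Pool.Agent.R140.JB

set_option autoImplicit false

/-!
# Betti numbers modulo 2: subadditivity, cones, joins of boundary complexes of simplices
-/

open Finset

namespace Pool.Agent.R140.Sph

/-- the rank of a block triangular matrix -/
lemma rank_block {m n m₁ n₁ m₂ n₂ K : Type} [Fintype m] [Fintype n] [Fintype m₁]
    [Fintype n₁] [Fintype m₂] [Fintype n₂] [DecidableEq n] [Field K] (M : Matrix m n K) (f : m₁ → m) (g : n₁ → n)
    (f' : m₂ → m) (g' : n₂ → n) (hg : Function.Injective g) (hg' : Function.Injective g')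
    (h0 : ∀ i j, M (f' i) (g j) = 0) :
    (M.submatrix f g).rank + (M.submatrix f' g').rank ≤ M.rank := by
  classical
  let U := LinearMap.range M.mulVecLin
  let p : (m → K) →ₗ[K] (m₂ → K) := LinearMap.funLeft K K f'
  let p₁ : (m → K) →ₗ[K] (m₁ → K) := LinearMap.funLeft K K f
  let W : Submodule K (m → K) := U ⊓ LinearMap.ker p
  have key : ∀ {ι : Type} [Fintype ι] (e : ι → n) (_ : Function.Injective e) (y : ι → K) (a : m),
      M.mulVec (fun b => ∑ j, if e j = b then y j else 0) a = ∑ j, M a (e j) * y j := by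
    intro ι _ e he y a
    simp only [Matrix.mulVec, dotProduct, Finset.mul_sum]
    rw [Finset.sum_comm]
    refine Finset.sum_congr rfl fun j _ => ?_
    simp
  have h1 : LinearMap.range (M.submatrix f g).mulVecLin ≤ Submodule.map p₁ W := by
    rintro x ⟨y, rfl⟩
    refine ⟨M.mulVec (fun b => ∑ j, if g j = b then y j else 0), ⟨⟨_, rfl⟩, ?_⟩, ?_⟩
    · change p _ = 0
      ext i
      change M.mulVec _ (f' i) = 0
      rw [key g hg y (f' i)]
      exact Finset.sum_eq_zero fun j _ => by rw [h0, zero_mul]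
    · ext i
      change M.mulVec _ (f i) = _
      rw [key g hg y (f i)]
      rfl
  have h2 : LinearMap.range (M.submatrix f' g').mulVecLin ≤ Submodule.map p U := by
    rintro x ⟨y, rfl⟩
    refine ⟨M.mulVec (fun b => ∑ j, if g' j = b then y j else 0), ⟨_, rfl⟩, ?_⟩
    ext i
    change M.mulVec _ (f' i) = _
    rw [key g' hg' y (f' i)]
    rfl
  have h3 := LinearMap.finrank_range_add_finrank_ker (p.domRestrict U)
  have h4 : LinearMap.range (p.domRestrict U) = Submodule.map p U := by
    ext x
    constructor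
    · rintro ⟨y, rfl⟩
      exact ⟨y, y.2, rfl⟩
    · rintro ⟨y, hy, rfl⟩
      exact ⟨⟨y, hy⟩, rfl⟩
  have h5 : Module.finrank K (LinearMap.ker (p.domRestrict U)) = Module.finrank K W := by
    have : W = Submodule.map U.subtype (LinearMap.ker (p.domRestrict U)) := by
      ext x
      constructor
      · rintro ⟨hx, hx'⟩
        exact ⟨⟨x, hx⟩, hx', rfl⟩
      · rintro ⟨y, hy, rfl⟩
        exact ⟨y.2, hy⟩
    rw [this]
    exact (Submodule.finrank_map_subtype_eq _ _).symm
  rw [h4, h5] at h3
  have h6 := Submodule.finrank_mono h1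
  have h7 := Submodule.finrank_mono h2
  have h8 := Submodule.finrank_map_le p₁ W
  have e0 : M.rank = Module.finrank K U := rfl
  have e1 : (M.submatrix f g).rank =
    Module.finrank K (LinearMap.range (M.submatrix f g).mulVecLin) := rfl
  have e2 : (M.submatrix f' g').rank =
    Module.finrank K (LinearMap.range (M.submatrix f' g').mulVecLin) := rfl
  omega

/-- closed under subsets -/
def Down (X : Finset (Finset ℕ)) : Prop := ∀ F ∈ X, ∀ G ⊆ F, G ∈ X

/-- the boundary matrix modulo 2 -/
lemma bdry_two (X : Finset (Finset ℕ)) (s : ℕ) (ρ : ↥(level X s)) (τ : ↥(level X (s + 1))) :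
    bdry (ZMod 2) X s ρ τ = if ρ.1 ⊆ τ.1 then 1 else 0 := by
  unfold bdry
  split_ifs with h
  · have : (-1 : ZMod 2) = 1 := by decide
    rw [this, one_pow]
  · rfl

lemma mem_level {X : Finset (Finset ℕ)} {s : ℕ} {F : Finset ℕ} :
    F ∈ level X s ↔ F ∈ X ∧ F.card = s := by
  unfold level
  rw [Finset.mem_filter]

lemma mem_link {X : Finset (Finset ℕ)} {σ F : Finset ℕ} :
    F ∈ link X σ ↔ F ∈ X ∧ Disjoint F σ ∧ F ∪ σ ∈ X := by
  unfold link
  rw [Finset.mem_filter]

/-- the boundary of a boundary is zero -/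
lemma bdry_bdry {X : Finset (Finset ℕ)} (hX : Down X) (s : ℕ) :
    bdry (ZMod 2) X s * bdry (ZMod 2) X (s + 1) = 0 := by
  classical
  ext ρ τ
  rw [Matrix.mul_apply, Matrix.zero_apply]
  simp only [bdry_two]
  have hρ := mem_level.1 ρ.2
  have hτ := mem_level.1 τ.2
  by_cases h : ρ.1 ⊆ τ.1
  · -- the intermediate faces
    have h1 : (τ.1 \ ρ.1).card = 2 := by
      rw [Finset.card_sdiff_of_subset h, hρ.2, hτ.2]
      omega
    obtain ⟨a, b, hab, h2⟩ := Finset.card_eq_two.1 h1
    have ha : a ∈ τ.1 ∧ a ∉ ρ.1 := by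
      rw [← Finset.mem_sdiff, h2]; simp
    have hb : b ∈ τ.1 ∧ b ∉ ρ.1 := by
      rw [← Finset.mem_sdiff, h2]; simp
    have hA : insert a ρ.1 ∈ level X (s + 1) := by
      rw [mem_level, Finset.card_insert_of_notMem ha.2, hρ.2]
      exact ⟨hX _ hτ.1 _ (Finset.insert_subset ha.1 h), rfl⟩
    have hB : insert b ρ.1 ∈ level X (s + 1) := by
      rw [mem_level, Finset.card_insert_of_notMem hb.2, hρ.2]
      exact ⟨hX _ hτ.1 _ (Finset.insert_subset hb.1 h), rfl⟩
    have hne : (⟨insert a ρ.1, hA⟩ : ↥(level X (s + 1))) ≠ ⟨insert b ρ.1, hB⟩ := by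
      intro he
      have h3 := congrArg Subtype.val he
      simp only at h3
      have h4 : a ∈ insert b ρ.1 := by rw [← h3]; exact Finset.mem_insert_self _ _
      rw [Finset.mem_insert] at h4
      rcases h4 with h4 | h4
      · exact hab h4
      · exact ha.2 h4
    rw [← Finset.sum_subset (Finset.subset_univ
      ({⟨insert a ρ.1, hA⟩, ⟨insert b ρ.1, hB⟩} : Finset ↥(level X (s + 1))))]
    · rw [Finset.sum_pair hne]
      have e1 : ρ.1 ⊆ insert a ρ.1 := Finset.subset_insert _ _
      have e2 : ρ.1 ⊆ insert b ρ.1 := Finset.subset_insert _ _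
      have e3 : insert a ρ.1 ⊆ τ.1 := Finset.insert_subset ha.1 h
      have e4 : insert b ρ.1 ⊆ τ.1 := Finset.insert_subset hb.1 h
      simp only [e1, e2, e3, e4, if_true, mul_one]
      decide
    · intro x _ hx
      by_cases h3 : ρ.1 ⊆ x.1
      · by_cases h4 : x.1 ⊆ τ.1
        · exfalso
          have hx1 := mem_level.1 x.2
          have h5 : (x.1 \ ρ.1).card = 1 := by
            rw [Finset.card_sdiff_of_subset h3, hρ.2, hx1.2]
            omega
          obtain ⟨c, hc⟩ := Finset.card_eq_one.1 h5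
          have h6 : x.1 = insert c ρ.1 := by
            rw [← Finset.sdiff_union_of_subset h3, hc]
            rfl
          have hcx : c ∈ x.1 \ ρ.1 := by rw [hc]; simp
          rw [Finset.mem_sdiff] at hcx
          have h7 : c ∈ τ.1 \ ρ.1 := Finset.mem_sdiff.2 ⟨h4 hcx.1, hcx.2⟩
          rw [h2] at h7
          apply hx
          simp only [Finset.mem_insert, Finset.mem_singleton] at h7 ⊢
          rcases h7 with rfl | rfl
          · left; exact Subtype.ext h6
          · right; exact Subtype.ext h6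
        · rw [if_neg h4, mul_zero]
      · rw [if_neg h3, zero_mul]
  · refine Finset.sum_eq_zero fun x _ => ?_
    by_cases h3 : ρ.1 ⊆ x.1
    · rw [if_neg (fun h4 => h (h3.trans h4)), mul_zero]
    · rw [if_neg h3, zero_mul]

lemma betti_nonneg {X : Finset (Finset ℕ)} (hX : Down X) (s : ℕ) : 0 ≤ betti (ZMod 2) X s := by
  classical
  unfold betti
  cases s with
  | zero =>
    have h := Matrix.rank_le_card_height (bdry (ZMod 2) X 0)
    rw [Fintype.card_coe] at h
    rw [if_pos rfl]
    omega
  | succ s =>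
    have h := Matrix.rank_add_rank_le_card_of_mul_eq_zero (bdry_bdry hX s)
    rw [Fintype.card_coe] at h
    rw [if_neg (Nat.succ_ne_zero s), Nat.add_sub_cancel]
    omega

/-- the deletion of a vertex -/
def del (X : Finset (Finset ℕ)) (v : ℕ) : Finset (Finset ℕ) := X.filter fun F => v ∉ F

lemma mem_del {X : Finset (Finset ℕ)} {v : ℕ} {F : Finset ℕ} : F ∈ del X v ↔ F ∈ X ∧ v ∉ F := by
  unfold del
  rw [Finset.mem_filter]

lemma mem_link_singleton {X : Finset (Finset ℕ)} (hX : Down X) {v : ℕ} {F : Finset ℕ} :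
    F ∈ link X {v} ↔ v ∉ F ∧ insert v F ∈ X := by
  rw [mem_link, Finset.disjoint_singleton_right, Finset.union_comm, ← Finset.insert_eq]
  constructor
  · exact fun h => h.2
  · exact fun h => ⟨hX _ h.2 _ (Finset.subset_insert _ _), h⟩

lemma card_level_succ {X : Finset (Finset ℕ)} (hX : Down X) (v s : ℕ) :
    (level X (s + 1)).card = (level (del X v) (s + 1)).card + (level (link X {v}) s).card := by
  classical
  have h1 : level X (s + 1) = level (del X v) (s + 1) ∪ (level (link X {v}) s).image (insert v) := by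
    ext F
    rw [Finset.mem_union, mem_level, mem_level, mem_del, Finset.mem_image]
    constructor
    · rintro ⟨h1, h2⟩
      by_cases hv : v ∈ F
      · right
        refine ⟨F.erase v, ?_, Finset.insert_erase hv⟩
        rw [mem_level, mem_link_singleton hX, Finset.insert_erase hv, Finset.card_erase_of_mem hv]
        exact ⟨⟨by simp, h1⟩, by omega⟩
      · left
        exact ⟨⟨h1, hv⟩, h2⟩
    · rintro (⟨⟨h1, h2⟩, h3⟩ | ⟨G, hG, rfl⟩)
      · exact ⟨h1, h3⟩
      · rw [mem_level, mem_link_singleton hX] at hG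
        rw [Finset.card_insert_of_notMem hG.1.1]
        exact ⟨hG.1.2, by omega⟩
  have h2 : Disjoint (level (del X v) (s + 1)) ((level (link X {v}) s).image (insert v)) := by
    rw [Finset.disjoint_left]
    intro F hF hF2
    rw [mem_level, mem_del] at hF
    obtain ⟨G, _, rfl⟩ := Finset.mem_image.1 hF2
    exact hF.1.2 (Finset.mem_insert_self _ _)
  rw [h1, Finset.card_union_of_disjoint h2, Finset.card_image_of_injOn]
  intro F hF G hG h
  rw [Finset.mem_coe, mem_level, mem_link_singleton hX] at hF hG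
  rw [← Finset.erase_insert hF.1.1, ← Finset.erase_insert hG.1.1]
  exact congrArg (fun s => s.erase v) h

lemma rank_del_zero {X : Finset (Finset ℕ)} (v s : ℕ) :
    (bdry (ZMod 2) (del X v) s).rank ≤ (bdry (ZMod 2) X s).rank := by
  classical
  let f : ↥(level (del X v) s) → ↥(level X s) := fun x =>
    ⟨x.1, mem_level.2 ⟨(mem_del.1 (mem_level.1 x.2).1).1, (mem_level.1 x.2).2⟩⟩
  let g : ↥(level (del X v) (s + 1)) → ↥(level X (s + 1)) := fun x =>
    ⟨x.1, mem_level.2 ⟨(mem_del.1 (mem_level.1 x.2).1).1, (mem_level.1 x.2).2⟩⟩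
  have h := rank_block (bdry (ZMod 2) X s) f g (Fin.elim0 : Fin 0 → _) (Fin.elim0 : Fin 0 → _)
    (fun a b hab => Subtype.ext (congrArg (fun z => z.1) hab)) (fun a => a.elim0) (fun i => i.elim0)
  have h2 : (bdry (ZMod 2) X s).submatrix f g = bdry (ZMod 2) (del X v) s := by
    ext a b
    rw [Matrix.submatrix_apply, bdry_two, bdry_two]
  rw [h2] at h
  omega

lemma rank_split {X : Finset (Finset ℕ)} (hX : Down X) (v s : ℕ) :
    (bdry (ZMod 2) (del X v) (s + 1)).rank + (bdry (ZMod 2) (link X {v}) s).rank ≤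
      (bdry (ZMod 2) X (s + 1)).rank := by
  classical
  have hl : ∀ {t : ℕ} (x : ↥(level (link X {v}) t)), v ∉ x.1 ∧ insert v x.1 ∈ level X (t + 1) := by
    intro t x
    have h1 := mem_level.1 x.2
    rw [mem_link_singleton hX] at h1
    refine ⟨h1.1.1, mem_level.2 ⟨h1.1.2, ?_⟩⟩
    rw [Finset.card_insert_of_notMem h1.1.1, h1.2]
  let f : ↥(level (del X v) (s + 1)) → ↥(level X (s + 1)) := fun x =>
    ⟨x.1, mem_level.2 ⟨(mem_del.1 (mem_level.1 x.2).1).1, (mem_level.1 x.2).2⟩⟩
  let g : ↥(level (del X v) (s + 2)) → ↥(level X (s + 2)) := fun x =>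
    ⟨x.1, mem_level.2 ⟨(mem_del.1 (mem_level.1 x.2).1).1, (mem_level.1 x.2).2⟩⟩
  let f' : ↥(level (link X {v}) s) → ↥(level X (s + 1)) := fun x => ⟨insert v x.1, (hl x).2⟩
  let g' : ↥(level (link X {v}) (s + 1)) → ↥(level X (s + 2)) := fun x => ⟨insert v x.1, (hl x).2⟩
  have hg' : Function.Injective g' := by
    intro a b hab
    have h1 : insert v a.1 = insert v b.1 := congrArg (fun z => z.1) hab
    apply Subtype.ext
    rw [← Finset.erase_insert (hl a).1, ← Finset.erase_insert (hl b).1]
    exact congrArg (fun s => s.erase v) h1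
  have h := rank_block (bdry (ZMod 2) X (s + 1)) f g f' g'
    (fun a b hab => Subtype.ext (congrArg (fun z => z.1) hab)) hg' ?_
  · have h2 : (bdry (ZMod 2) X (s + 1)).submatrix f g = bdry (ZMod 2) (del X v) (s + 1) := by
      ext a b
      rw [Matrix.submatrix_apply, bdry_two, bdry_two]
    have h3 : (bdry (ZMod 2) X (s + 1)).submatrix f' g' = bdry (ZMod 2) (link X {v}) s := by
      ext a b
      rw [Matrix.submatrix_apply, bdry_two, bdry_two]
      congr 1
      change (insert v a.1 ⊆ insert v b.1) = _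
      rw [eq_iff_iff, Finset.insert_subset_insert_iff (hl a).1]
    rw [h2, h3] at h
    exact h
  · intro i j
    rw [bdry_two, if_neg]
    intro h
    have h1 : v ∈ j.1 := h (Finset.mem_insert_self v i.1)
    exact (mem_del.1 (mem_level.1 j.2).1).2 h1

lemma level_zero {X : Finset (Finset ℕ)} (h : ∅ ∈ X) : level X 0 = {∅} := by
  ext F
  rw [mem_level, Finset.card_eq_zero, Finset.mem_singleton]
  constructor
  · exact fun h => h.2
  · rintro rfl; exact ⟨h, rfl⟩

lemma level_zero_card {X : Finset (Finset ℕ)} (h : ∅ ∈ X) : (level X 0).card = 1 := by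
  rw [level_zero h, Finset.card_singleton]

lemma betti_zero_le {X : Finset (Finset ℕ)} (h : ∅ ∈ X) (v : ℕ) :
    betti (ZMod 2) X 0 ≤ betti (ZMod 2) (del X v) 0 := by
  have h0 : ∅ ∈ del X v := mem_del.2 ⟨h, by simp⟩
  have h1 := rank_del_zero (X := X) v 0
  have e1 := level_zero_card h
  have e2 := level_zero_card h0
  unfold betti
  rw [if_pos rfl, if_pos rfl]
  omega

lemma betti_succ_le {X : Finset (Finset ℕ)} (hX : Down X) (v s : ℕ) :
    betti (ZMod 2) X (s + 1) ≤ betti (ZMod 2) (del X v) (s + 1) + betti (ZMod 2) (link X {v}) s := by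
  have h1 := card_level_succ hX v s
  have h2 := rank_split hX v s
  unfold betti
  rw [if_neg (Nat.succ_ne_zero s), if_neg (Nat.succ_ne_zero s), Nat.add_sub_cancel]
  cases s with
  | zero =>
    have h3 := rank_del_zero (X := X) v 0
    rw [if_pos rfl]
    omega
  | succ s =>
    have h3 := rank_split hX v s
    rw [if_neg (Nat.succ_ne_zero s), Nat.add_sub_cancel]
    omega

/-- a cone has no homology -/
lemma betti_cone {X : Finset (Finset ℕ)} (hX : Down X) (w : ℕ)
    (hw : ∀ F ∈ X, insert w F ∈ X) (h0 : ∅ ∈ X) (s : ℕ) : betti (ZMod 2) X s = 0 := by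
  classical
  have hdl : del X w = link X {w} := by
    ext F
    rw [mem_del, mem_link_singleton hX]
    constructor
    · exact fun h => ⟨h.2, hw F h.1⟩
    · exact fun h => ⟨hX _ h.2 _ (Finset.subset_insert _ _), h.1⟩
  have hl : ∀ {t : ℕ} (x : ↥(level (link X {w}) t)), w ∉ x.1 ∧ insert w x.1 ∈ level X (t + 1) := by
    intro t x
    have h1 := mem_level.1 x.2
    rw [mem_link_singleton hX] at h1
    refine ⟨h1.1.1, mem_level.2 ⟨h1.1.2, ?_⟩⟩
    rw [Finset.card_insert_of_notMem h1.1.1, h1.2]
  have hr : ∀ t, (level (link X {w}) t).card ≤ (bdry (ZMod 2) X t).rank := by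
    intro t
    let f : ↥(level (link X {w}) t) → ↥(level X t) := fun x =>
      ⟨x.1, mem_level.2 ⟨(mem_link.1 (mem_level.1 x.2).1).1, (mem_level.1 x.2).2⟩⟩
    let g : ↥(level (link X {w}) t) → ↥(level X (t + 1)) := fun x => ⟨insert w x.1, (hl x).2⟩
    have hg : Function.Injective g := by
      intro a b hab
      have h1 : insert w a.1 = insert w b.1 := congrArg (fun z => z.1) hab
      apply Subtype.ext
      rw [← Finset.erase_insert (hl a).1, ← Finset.erase_insert (hl b).1]
      exact congrArg (fun s => s.erase w) h1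
    have h := rank_block (bdry (ZMod 2) X t) f g (Fin.elim0 : Fin 0 → _) (Fin.elim0 : Fin 0 → _)
      hg (fun a => a.elim0) (fun i => i.elim0)
    have h2 : (bdry (ZMod 2) X t).submatrix f g = 1 := by
      ext a b
      rw [Matrix.submatrix_apply, bdry_two]
      change (if a.1 ⊆ insert w b.1 then (1 : ZMod 2) else 0) = _
      rw [Matrix.one_apply]
      congr 1
      rw [eq_iff_iff]
      constructor
      · intro h
        apply Subtype.ext
        apply Finset.eq_of_subset_of_card_le
        · intro x hx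
          have := h hx
          rw [Finset.mem_insert] at this
          rcases this with rfl | h'
          · exact absurd hx (hl a).1
          · exact h'
        · rw [(mem_level.1 a.2).2, (mem_level.1 b.2).2]
      · rintro rfl
        exact Finset.subset_insert _ _
    rw [h2, Matrix.rank_one, Fintype.card_coe] at h
    omega
  apply le_antisymm _ (betti_nonneg hX s)
  unfold betti
  cases s with
  | zero =>
    have h1 := hr 0
    have h2 : ∅ ∈ link X {w} := by
      rw [mem_link_singleton hX]
      exact ⟨by simp, hw _ h0⟩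
    have e1 := level_zero_card h0
    rw [level_zero_card h2] at h1
    rw [if_pos rfl]
    omega
  | succ s =>
    have h1 := hr s
    have h2 := hr (s + 1)
    have h3 := card_level_succ hX w s
    rw [hdl] at h3
    rw [if_neg (Nat.succ_ne_zero s), Nat.add_sub_cancel]
    omega

/-- the reduced Euler characteristic from the Betti numbers -/
lemma euler_betti (X : Finset (Finset ℕ)) (N : ℕ) (hN : ∀ F ∈ X, F.card < N) :
    ∑ F ∈ X, (-1 : ℤ) ^ F.card = ∑ s ∈ range N, (-1 : ℤ) ^ s * betti (ZMod 2) X s := by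
  classical
  have h1 : ∑ F ∈ X, (-1 : ℤ) ^ F.card = ∑ s ∈ range N, (-1 : ℤ) ^ s * (level X s).card := by
    rw [← Finset.sum_fiberwise_of_maps_to (s := X) (t := range N) (g := Finset.card)
      (fun F hF => Finset.mem_range.2 (hN F hF))]
    refine Finset.sum_congr rfl fun s _ => ?_
    rw [Finset.sum_congr rfl (g := fun _ => (-1 : ℤ) ^ s)
      (fun F hF => by rw [(Finset.mem_filter.1 hF).2])]
    rw [Finset.sum_const, nsmul_eq_mul, mul_comm]
    rfl
  have h2 : ∀ n, ∑ s ∈ range (n + 1), (-1 : ℤ) ^ s * betti (ZMod 2) X s =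
      ∑ s ∈ range (n + 1), (-1 : ℤ) ^ s * (level X s).card
        - (-1) ^ n * (bdry (ZMod 2) X n).rank := by
    intro n
    induction n with
    | zero => simp [betti]
    | succ n ih =>
      rw [Finset.sum_range_succ, ih, Finset.sum_range_succ _ (n + 1)]
      unfold betti
      rw [if_neg (Nat.succ_ne_zero n), Nat.add_sub_cancel]
      ring
  rw [h1]
  cases N with
  | zero => simp
  | succ N =>
    rw [h2 N]
    have h5 : (bdry (ZMod 2) X N).rank = 0 := by
      have : IsEmpty ↥(level X (N + 1)) := by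
        refine ⟨fun x => ?_⟩
        have hx := mem_level.1 x.2
        have := hN _ hx.1
        omega
      have h6 := Matrix.rank_le_card_width (bdry (ZMod 2) X N)
      rw [Fintype.card_eq_zero] at h6
      omega
    rw [h5]
    simp

/-- a complex with the right Euler characteristic, whose deletion of a vertex is acyclic and whose
link has the homology of a sphere, has the homology of a sphere -/
lemma sphereHom_of_split {X : Finset (Finset ℕ)} (hX : Down X) (h0 : ∅ ∈ X) (v m : ℕ)
    (hd : ∀ s, betti (ZMod 2) (del X v) s = 0) (hl : SphereHom (ZMod 2) (link X {v}) m)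
    (he : ∑ F ∈ X, (-1 : ℤ) ^ F.card = (-1) ^ (m + 1)) : SphereHom (ZMod 2) X (m + 1) := by
  classical
  have h1 : ∀ s, s ≠ m + 1 → betti (ZMod 2) X s = 0 := by
    intro s hs
    apply le_antisymm _ (betti_nonneg hX s)
    cases s with
    | zero =>
      have := betti_zero_le h0 v
      rw [hd 0] at this
      exact this
    | succ s =>
      have := betti_succ_le hX v s
      rw [hd, hl s, if_neg (fun h => hs (by rw [h]))] at this
      simpa using this
  obtain ⟨N, hN⟩ : ∃ N, ∀ F ∈ X, F.card < N := ⟨X.sup Finset.card + 1, fun F hF =>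
    Nat.lt_succ_of_le (Finset.le_sup hF)⟩
  have h2 := euler_betti X (N + m + 2) (fun F hF => by have := hN F hF; omega)
  rw [he, Finset.sum_eq_single (m + 1) (fun s _ hs => by rw [h1 s hs, mul_zero])
    (fun h => absurd (Finset.mem_range.2 (by omega)) h)] at h2
  have h3 : betti (ZMod 2) X (m + 1) = 1 := by
    have h4 : ((-1 : ℤ) ^ (m + 1)) * ((-1 : ℤ) ^ (m + 1)) = 1 := by
      rw [← pow_add, ← two_mul, pow_mul]; simp
    calc betti (ZMod 2) X (m + 1)
        = ((-1 : ℤ) ^ (m + 1)) * ((-1 : ℤ) ^ (m + 1)) * betti (ZMod 2) X (m + 1) := by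
          rw [h4, one_mul]
      _ = ((-1 : ℤ) ^ (m + 1)) * ((-1 : ℤ) ^ (m + 1) * betti (ZMod 2) X (m + 1)) := by ring
      _ = 1 := by rw [← h2, h4]
  intro s
  split_ifs with hs
  · rw [hs, h3]
  · exact h1 s hs

end Pool.Agent.R140.Sph
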