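import Pool.Agent.R140.Sph

set_option autoImplicit false

/-!
# Joins of boundary complexes of simplices
-/

open Finset

namespace Pool.Agent.R140.Sph

/-- The subsets of `⋃ ℬ` which contain no member of `ℬ`. -/
def jbFaces (ℬ : Finset (Finset ℕ)) : Finset (Finset ℕ) :=
  (ℬ.sup id).powerset.filter fun F => ∀ B ∈ ℬ, ¬ B ⊆ F

lemma mem_jbFaces {ℬ : Finset (Finset ℕ)} {F : Finset ℕ} :
    F ∈ jbFaces ℬ ↔ F ⊆ ℬ.sup id ∧ ∀ B ∈ ℬ, ¬ B ⊆ F := by
  unfold jbFaces
  rw [Finset.mem_filter, Finset.mem_powerset]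

/-- The join of the boundary complexes of the simplices with the vertex sets `B ∈ ℬ` (nonempty, and
pairwise disjoint in all uses): a set of vertices is a face if it contains no `B ∈ ℬ`. -/
def joinBdry (ℬ : Finset (Finset ℕ)) (h : ∅ ∉ ℬ) : Cplx where
  faces := jbFaces ℬ
  empty_mem := by
    rw [mem_jbFaces]
    refine ⟨Finset.empty_subset _, fun B hB hs => ?_⟩
    rw [Finset.subset_empty] at hs
    exact h (hs ▸ hB)
  down := by
    intro F hF G hG
    rw [mem_jbFaces] at hF ⊢
    exact ⟨hG.trans hF.1, fun B hB hs => hF.2 B hB (hs.trans hG)⟩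

open Polynomial

lemma fPoly_jb (ℬ : Finset (Finset ℕ)) (hd : (ℬ : Set (Finset ℕ)).PairwiseDisjoint id) :
    fPoly (jbFaces ℬ) = ∏ B ∈ ℬ, ((1 + X : ℤ[X]) ^ B.card - X ^ B.card) := by
  classical
  induction ℬ using Finset.induction_on with
  | empty =>
    unfold fPoly
    have : jbFaces ∅ = {∅} := by
      ext F
      rw [mem_jbFaces]
      simp
    rw [this]
    simp
  | insert B ℬ hB ih =>
    rw [Finset.prod_insert hB]
    have hd' : (ℬ : Set (Finset ℕ)).PairwiseDisjoint id :=
      hd.subset (by intro x hx; simp only [Finset.coe_insert]; exact Set.mem_insert_of_mem _ hx)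
    rw [← ih hd']
    have hdis : Disjoint B (ℬ.sup id) := by
      rw [Finset.disjoint_sup_right]
      intro C hC
      have hBC : B ≠ C := fun h => hB (h ▸ hC)
      exact hd (by simp) (by simp [hC]) hBC
    have hsup : (insert B ℬ).sup id = B ∪ ℬ.sup id := by
      rw [Finset.sup_insert]; rfl
    have h1 : ((1 + X : ℤ[X]) ^ B.card - X ^ B.card) = ∑ G ∈ B.powerset.erase B, X ^ G.card := by
      have h2 := Finset.sum_pow_mul_eq_add_pow (X : ℤ[X]) 1 B
      simp only [one_pow, mul_one] at h2
      rw [add_comm 1 X, ← h2, ← Finset.add_sum_erase _ _ (Finset.mem_powerset_self B)]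
      ring
    rw [h1]
    unfold fPoly
    rw [Finset.sum_mul_sum, ← Finset.sum_product']
    symm
    refine Finset.sum_bij' (fun p _ => p.1 ∪ p.2) (fun F _ => (F ∩ B, F \ B)) ?_ ?_ ?_ ?_ ?_
    · rintro ⟨G, H⟩ hp
      rw [Finset.mem_product, Finset.mem_erase, Finset.mem_powerset, mem_jbFaces] at hp
      obtain ⟨⟨hG1, hG2⟩, hH1, hH2⟩ := hp
      rw [mem_jbFaces, hsup]
      refine ⟨Finset.union_subset_union hG2 hH1, ?_⟩
      intro C hC hs
      rw [Finset.mem_insert] at hC
      rcases hC with rfl | hC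
      · apply hG1
        apply Finset.Subset.antisymm hG2
        intro x hx
        rcases Finset.mem_union.1 (hs hx) with h | h
        · exact h
        · exact absurd (hH1 h) (Finset.disjoint_left.1 hdis hx)
      · apply hH2 C hC
        intro x hx
        rcases Finset.mem_union.1 (hs hx) with h | h
        · exact absurd (Finset.mem_sup.2 ⟨C, hC, hx⟩) (Finset.disjoint_left.1 hdis (hG2 h))
        · exact h
    · intro F hF
      rw [mem_jbFaces, hsup] at hF
      rw [Finset.mem_product, Finset.mem_erase, Finset.mem_powerset, mem_jbFaces]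
      refine ⟨⟨fun h => hF.2 B (Finset.mem_insert_self _ _) ?_, Finset.inter_subset_right⟩, ?_, ?_⟩
      · exact Finset.inter_eq_right.1 h
      · intro x hx
        rw [Finset.mem_sdiff] at hx
        rcases Finset.mem_union.1 (hF.1 hx.1) with h | h
        · exact absurd h hx.2
        · exact h
      · intro C hC hs
        exact hF.2 C (Finset.mem_insert_of_mem hC) (hs.trans Finset.sdiff_subset)
    · rintro ⟨G, H⟩ hp
      rw [Finset.mem_product, Finset.mem_erase, Finset.mem_powerset, mem_jbFaces] at hp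
      obtain ⟨⟨hG1, hG2⟩, hH1, hH2⟩ := hp
      have hHB : Disjoint H B := (Finset.disjoint_of_subset_right hH1 hdis).symm
      ext x
      · simp only [Finset.mem_inter, Finset.mem_union]
        constructor
        · rintro ⟨h | h, hx⟩
          · exact h
          · exact absurd hx (Finset.disjoint_left.1 hHB h)
        · intro h
          exact ⟨Or.inl h, hG2 h⟩
      · simp only [Finset.mem_sdiff, Finset.mem_union]
        constructor
        · rintro ⟨h | h, hx⟩
          · exact absurd (hG2 h) hx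
          · exact h
        · intro h
          exact ⟨Or.inr h, Finset.disjoint_left.1 hHB h⟩
    · intro F _
      ext x
      simp only [Finset.mem_inter, Finset.mem_union, Finset.mem_sdiff]
      tauto
    · rintro ⟨G, H⟩ hp
      rw [Finset.mem_product, Finset.mem_erase, Finset.mem_powerset, mem_jbFaces] at hp
      obtain ⟨⟨hG1, hG2⟩, hH1, hH2⟩ := hp
      have hHG : Disjoint G H := Finset.disjoint_of_subset_left hG2
        (Finset.disjoint_of_subset_right hH1 hdis)
      simp only
      rw [Finset.card_union_of_disjoint hHG, pow_add]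

/-- Dehn-Sommerville for joins of boundary complexes of simplices. -/
lemma ds_jb (ℬ : Finset (Finset ℕ)) (hd : (ℬ : Set (Finset ℕ)).PairwiseDisjoint id) (d : ℕ)
    (hs : ∑ B ∈ ℬ, B.card = d + ℬ.card) :
    (fPoly (jbFaces ℬ)).comp (-1 - X) = (-1) ^ d * fPoly (jbFaces ℬ) := by
  rw [fPoly_jb ℬ hd]
  have h1 : (∏ B ∈ ℬ, ((1 + X : ℤ[X]) ^ B.card - X ^ B.card)).comp (-1 - X) =
      ∏ B ∈ ℬ, (((1 + X : ℤ[X]) ^ B.card - X ^ B.card)).comp (-1 - X) :=
    map_prod (Polynomial.compRingHom (-1 - Polynomial.X : ℤ[X])) _ _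
  rw [h1]
  have h2 : ∀ B ∈ ℬ, (((1 + X : ℤ[X]) ^ B.card - X ^ B.card)).comp (-1 - X) =
      (-1) ^ (B.card + 1) * ((1 + X : ℤ[X]) ^ B.card - X ^ B.card) := by
    intro B _
    simp only [sub_comp, pow_comp, add_comp, one_comp, X_comp]
    have h3 : (1 + (-1 - X) : ℤ[X]) = (-1) * X := by ring
    have h4 : (-1 - X : ℤ[X]) = (-1) * (1 + X) := by ring
    rw [h3, h4, mul_pow, mul_pow, pow_succ]
    ring
  rw [Finset.prod_congr rfl h2, Finset.prod_mul_distrib, Finset.prod_pow_eq_pow_sum]
  congr 1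
  rw [Finset.sum_add_distrib, hs, Finset.sum_const, smul_eq_mul, mul_one]
  rw [show d + ℬ.card + ℬ.card = d + 2 * ℬ.card by ring, pow_add, pow_mul]
  simp

/-- faces of a join of boundary complexes are small -/
lemma card_jb (ℬ : Finset (Finset ℕ)) (hd : (ℬ : Set (Finset ℕ)).PairwiseDisjoint id) (d : ℕ)
    (hs : ∑ B ∈ ℬ, B.card = d + ℬ.card) {F : Finset ℕ} (hF : F ∈ jbFaces ℬ) : F.card ≤ d := by
  classical
  rw [mem_jbFaces] at hF
  have h1 : F = ℬ.biUnion fun B => F ∩ B := by
    ext x
    simp only [Finset.mem_biUnion, Finset.mem_inter]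
    constructor
    · intro hx
      obtain ⟨B, hB, hxB⟩ := Finset.mem_sup.1 (hF.1 hx)
      exact ⟨B, hB, hx, hxB⟩
    · rintro ⟨B, _, hx, _⟩
      exact hx
  have h2 : F.card ≤ ∑ B ∈ ℬ, (F ∩ B).card := by
    conv_lhs => rw [h1]
    exact Finset.card_biUnion_le
  have h3 : ∑ B ∈ ℬ, (F ∩ B).card + ℬ.card ≤ ∑ B ∈ ℬ, B.card := by
    rw [Finset.card_eq_sum_ones, ← Finset.sum_add_distrib]
    refine Finset.sum_le_sum fun B hB => ?_
    have h4 : F ∩ B ⊂ B := by
      rw [Finset.ssubset_iff_subset_ne]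
      refine ⟨Finset.inter_subset_right, fun h => hF.2 B hB ?_⟩
      exact Finset.inter_eq_right.1 h
    exact Finset.card_lt_card h4
  omega

/-- vertices of a join of boundary complexes of simplices with at least two vertices -/
lemma verts_jb (ℬ : Finset (Finset ℕ)) (h : ∅ ∉ ℬ) (h2 : ∀ B ∈ ℬ, 2 ≤ B.card) :
    verts (joinBdry ℬ h) = ℬ.sup id := by
  ext v
  rw [mem_verts]
  change {v} ∈ jbFaces ℬ ↔ _
  rw [mem_jbFaces, Finset.singleton_subset_iff]
  constructor
  · exact fun h => h.1
  · intro hv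
    refine ⟨hv, fun B hB hs => ?_⟩
    have := Finset.card_le_card hs
    rw [Finset.card_singleton] at this
    have := h2 B hB
    omega

end Pool.Agent.R140.Sph
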