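import Pool.Agent.R140.Hom2

set_option autoImplicit false

/-!
# Joins of boundary complexes of simplices are homology spheres; their `h`-numbers
-/

open Finset

namespace Pool.Agent.R140.Sph

lemma down_jb (ℬ : Finset (Finset ℕ)) : Down (jbFaces ℬ) := by
  intro F hF G hG
  rw [mem_jbFaces] at hF ⊢
  exact ⟨hG.trans hF.1, fun B hB hs => hF.2 B hB (hs.trans hG)⟩

lemma empty_mem_jb {ℬ : Finset (Finset ℕ)} (h : ∅ ∉ ℬ) : ∅ ∈ jbFaces ℬ := by
  rw [mem_jbFaces]
  refine ⟨Finset.empty_subset _, fun B hB hs => ?_⟩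
  rw [Finset.subset_empty] at hs
  exact h (hs ▸ hB)

lemma mem_supB {ℬ : Finset (Finset ℕ)} {x : ℕ} : x ∈ ℬ.sup id ↔ ∃ B ∈ ℬ, x ∈ B := by
  rw [Finset.mem_sup]; rfl

/-- the link of a face of a join of boundary complexes is a join of boundary complexes -/
lemma link_jb {ℬ : Finset (Finset ℕ)} {σ : Finset ℕ} (hσ : σ ∈ jbFaces ℬ) :
    link (jbFaces ℬ) σ = jbFaces (ℬ.image (· \ σ)) := by
  ext F
  rw [mem_link, mem_jbFaces, mem_jbFaces, mem_jbFaces]
  rw [mem_jbFaces] at hσ
  constructor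
  · rintro ⟨⟨h1, _⟩, h3, h4, h5⟩
    refine ⟨fun x hx => ?_, ?_⟩
    · rw [mem_supB]
      obtain ⟨B, hB, hxB⟩ := mem_supB.1 (h1 hx)
      exact ⟨B \ σ, Finset.mem_image_of_mem _ hB,
        Finset.mem_sdiff.2 ⟨hxB, Finset.disjoint_left.1 h3 hx⟩⟩
    · intro C hC hs
      obtain ⟨B, hB, rfl⟩ := Finset.mem_image.1 hC
      apply h5 B hB
      intro x hx
      rw [Finset.mem_union]
      by_cases hxσ : x ∈ σ
      · exact Or.inr hxσ
      · exact Or.inl (hs (Finset.mem_sdiff.2 ⟨hx, hxσ⟩))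
  · rintro ⟨h1, h2⟩
    have h3 : ∀ x ∈ F, x ∈ ℬ.sup id ∧ x ∉ σ := by
      intro x hx
      obtain ⟨C, hC, hxC⟩ := mem_supB.1 (h1 hx)
      obtain ⟨B, hB, rfl⟩ := Finset.mem_image.1 hC
      rw [Finset.mem_sdiff] at hxC
      exact ⟨mem_supB.2 ⟨B, hB, hxC.1⟩, hxC.2⟩
    have h4 : ∀ B ∈ ℬ, ¬ B ⊆ F ∪ σ := by
      intro B hB hs
      apply h2 (B \ σ) (Finset.mem_image_of_mem _ hB)
      intro x hx
      rw [Finset.mem_sdiff] at hx
      rcases Finset.mem_union.1 (hs hx.1) with h | h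
      · exact h
      · exact absurd h hx.2
    refine ⟨⟨fun x hx => (h3 x hx).1, fun B hB hs => h4 B hB (hs.trans Finset.subset_union_left)⟩,
      Finset.disjoint_left.2 fun x hx => (h3 x hx).2, Finset.union_subset (fun x hx => (h3 x hx).1) hσ.1, h4⟩

/-- the blocks of the link of a face -/
lemma blocks_link {ℬ : Finset (Finset ℕ)} (hd : (ℬ : Set (Finset ℕ)).PairwiseDisjoint id)
    {σ : Finset ℕ} (hσ : σ ∈ jbFaces ℬ) :
    ∅ ∉ ℬ.image (· \ σ) ∧ ((ℬ.image (· \ σ) : Finset (Finset ℕ)) : Set (Finset ℕ)).PairwiseDisjoint id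
      ∧ (ℬ.image (· \ σ)).card = ℬ.card ∧
      ∑ B ∈ ℬ.image (· \ σ), B.card + σ.card = ∑ B ∈ ℬ, B.card := by
  classical
  rw [mem_jbFaces] at hσ
  have hne : ∀ B ∈ ℬ, (B \ σ).Nonempty := by
    intro B hB
    rw [Finset.sdiff_nonempty]
    exact hσ.2 B hB
  have hinj : Set.InjOn (· \ σ) (ℬ : Set (Finset ℕ)) := by
    intro B hB C hC h
    by_contra hBC
    obtain ⟨x, hx⟩ := hne B hB
    have hx2 : x ∈ C \ σ := by
      have h' : B \ σ = C \ σ := h
      rw [← h']; exact hx
    rw [Finset.mem_sdiff] at hx hx2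
    exact Finset.disjoint_left.1 (hd hB hC hBC) hx.1 hx2.1
  refine ⟨?_, ?_, Finset.card_image_of_injOn hinj, ?_⟩
  · intro h
    obtain ⟨B, hB, h⟩ := Finset.mem_image.1 h
    exact (hne B hB).ne_empty h
  · intro C hC D hD hCD
    rw [Finset.mem_coe, Finset.mem_image] at hC hD
    obtain ⟨B, hB, rfl⟩ := hC
    obtain ⟨B', hB', rfl⟩ := hD
    have : B ≠ B' := fun h => hCD (by rw [h])
    exact Finset.disjoint_of_subset_left Finset.sdiff_subset
      (Finset.disjoint_of_subset_right Finset.sdiff_subset (hd hB hB' this))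
  · rw [Finset.sum_image hinj]
    have h1 : σ.card = ∑ B ∈ ℬ, (B ∩ σ).card := by
      rw [← Finset.card_biUnion]
      · congr 1
        ext x
        simp only [Finset.mem_biUnion, Finset.mem_inter]
        constructor
        · intro hx
          obtain ⟨B, hB, hxB⟩ := mem_supB.1 (hσ.1 hx)
          exact ⟨B, hB, hxB, hx⟩
        · rintro ⟨B, _, _, hx⟩
          exact hx
      · intro B hB C hC hBC
        exact Finset.disjoint_of_subset_left Finset.inter_subset_left
          (Finset.disjoint_of_subset_right Finset.inter_subset_left (hd hB hC hBC))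
    rw [h1, ← Finset.sum_add_distrib]
    refine Finset.sum_congr rfl fun B _ => ?_
    exact Finset.card_sdiff_add_card_inter B σ

open Polynomial in
lemma euler_jb (ℬ : Finset (Finset ℕ)) (h : ∅ ∉ ℬ)
    (hd : (ℬ : Set (Finset ℕ)).PairwiseDisjoint id) (d : ℕ)
    (hs : ∑ B ∈ ℬ, B.card = d + ℬ.card) : ∑ F ∈ jbFaces ℬ, (-1 : ℤ) ^ F.card = (-1) ^ d := by
  have h1 := congrArg (Polynomial.eval (-1 : ℤ)) (fPoly_jb ℬ hd)
  unfold fPoly at h1
  rw [Polynomial.eval_finsetSum, Polynomial.eval_prod] at h1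
  simp only [Polynomial.eval_pow, Polynomial.eval_X, Polynomial.eval_sub, Polynomial.eval_add,
    Polynomial.eval_one] at h1
  rw [h1]
  have h2 : ∀ B ∈ ℬ, ((1 + -1 : ℤ) ^ B.card - (-1) ^ B.card) = (-1) ^ (B.card + 1) := by
    intro B hB
    have : B.card ≠ 0 := by
      rw [Finset.card_ne_zero, Finset.nonempty_iff_ne_empty]
      rintro rfl
      exact h hB
    rw [add_neg_cancel, zero_pow this, pow_succ]
    ring
  rw [Finset.prod_congr rfl h2, Finset.prod_pow_eq_pow_sum, Finset.sum_add_distrib, hs,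
    Finset.sum_const, smul_eq_mul, mul_one]
  rw [show d + ℬ.card + ℬ.card = d + 2 * ℬ.card by ring, pow_add, pow_mul]
  simp

lemma sphereHom_point : SphereHom (ZMod 2) ({∅} : Finset (Finset ℕ)) 0 := by
  classical
  have hl : ∀ s, level ({∅} : Finset (Finset ℕ)) (s + 1) = ∅ := by
    intro s
    ext F
    rw [mem_level, Finset.mem_singleton]
    constructor
    · rintro ⟨rfl, h⟩
      simp at h
    · intro h; exact absurd h (Finset.notMem_empty _)
  have hr : ∀ s, (bdry (ZMod 2) ({∅} : Finset (Finset ℕ)) s).rank = 0 := by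
    intro s
    have h1 := Matrix.rank_le_card_width (bdry (ZMod 2) ({∅} : Finset (Finset ℕ)) s)
    have h2 : (level ({∅} : Finset (Finset ℕ)) (s + 1)).card = 0 := by rw [hl, Finset.card_empty]
    rw [Fintype.card_coe] at h1
    omega
  intro s
  unfold betti
  cases s with
  | zero =>
    have := level_zero_card (X := ({∅} : Finset (Finset ℕ))) (Finset.mem_singleton_self _)
    rw [hr, this]
    simp
  | succ s =>
    have h2 : (level ({∅} : Finset (Finset ℕ)) (s + 1)).card = 0 := by rw [hl, Finset.card_empty]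
    rw [hr, h2, if_neg (Nat.succ_ne_zero s), if_neg (Nat.succ_ne_zero s), Nat.add_sub_cancel, hr]
    simp

/-- the homology of a join of boundary complexes of simplices -/
lemma sphereHom_jb : ∀ (d : ℕ) (ℬ : Finset (Finset ℕ)), ∅ ∉ ℬ →
    (ℬ : Set (Finset ℕ)).PairwiseDisjoint id → ∑ B ∈ ℬ, B.card = d + ℬ.card →
    SphereHom (ZMod 2) (jbFaces ℬ) d := by
  classical
  intro d
  induction d with
  | zero =>
    intro ℬ h hd hs
    have h1 : ∀ B ∈ ℬ, 1 ≤ B.card := by
      intro B hB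
      rw [Nat.succ_le_iff, Finset.card_pos, Finset.nonempty_iff_ne_empty]
      rintro rfl
      exact h hB
    have h2 : ∀ B ∈ ℬ, B.card = 1 := by
      by_contra hcon
      push Not at hcon
      obtain ⟨B, hB, hB1⟩ := hcon
      have h3 : ∑ B ∈ ℬ, 1 < ∑ B ∈ ℬ, B.card :=
        Finset.sum_lt_sum (fun B hB => h1 B hB) ⟨B, hB, by have := h1 B hB; omega⟩
      rw [Finset.sum_const, smul_eq_mul, mul_one] at h3
      omega
    have h3 : jbFaces ℬ = {∅} := by
      ext F
      rw [Finset.mem_singleton]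
      constructor
      · intro hF
        rw [mem_jbFaces] at hF
        rw [Finset.eq_empty_iff_forall_notMem]
        intro x hx
        obtain ⟨B, hB, hxB⟩ := mem_supB.1 (hF.1 hx)
        obtain ⟨y, rfl⟩ := Finset.card_eq_one.1 (h2 B hB)
        rw [Finset.mem_singleton] at hxB
        subst hxB
        exact hF.2 _ hB (Finset.singleton_subset_iff.2 hx)
      · rintro rfl
        exact empty_mem_jb h
    rw [h3]
    exact sphereHom_point
  | succ d ih =>
    intro ℬ h hd hs
    have h1 : ∃ B ∈ ℬ, 1 < B.card := by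
      by_contra hcon
      push Not at hcon
      have h3 : ∑ B ∈ ℬ, B.card ≤ ∑ B ∈ ℬ, 1 := Finset.sum_le_sum hcon
      rw [Finset.sum_const, smul_eq_mul, mul_one] at h3
      omega
    obtain ⟨B, hB, hB2⟩ := h1
    obtain ⟨v, hv, w, hw, hvw⟩ := Finset.one_lt_card.1 hB2
    have hvf : {v} ∈ jbFaces ℬ := by
      rw [mem_jbFaces, Finset.singleton_subset_iff]
      refine ⟨mem_supB.2 ⟨B, hB, hv⟩, fun C hC hs => ?_⟩
      by_cases hCB : C = B
      · subst hCB
        exact hvw (Finset.mem_singleton.1 (hs hw)).symm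
      · have hne : C.Nonempty := by
          rw [Finset.nonempty_iff_ne_empty]
          rintro rfl
          exact h hC
        obtain ⟨x, hx⟩ := hne
        have := Finset.mem_singleton.1 (hs hx)
        subst this
        exact Finset.disjoint_left.1 (hd hC hB hCB) hx hv
    obtain ⟨g1, g2, g3, g4⟩ := blocks_link hd hvf
    rw [Finset.card_singleton] at g4
    refine sphereHom_of_split (down_jb ℬ) (empty_mem_jb h) v d ?_ ?_ (euler_jb ℬ h hd _ hs)
    · -- the deletion of `v` is a cone with apex `w`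
      intro s
      refine betti_cone ?_ w ?_ ?_ s
      · intro F hF G hG
        rw [mem_del] at hF ⊢
        exact ⟨down_jb ℬ F hF.1 G hG, fun h => hF.2 (hG h)⟩
      · intro F hF
        rw [mem_del, mem_jbFaces] at hF
        rw [mem_del, mem_jbFaces]
        refine ⟨⟨Finset.insert_subset (mem_supB.2 ⟨B, hB, hw⟩) hF.1.1, fun C hC hs => ?_⟩, ?_⟩
        · by_cases hCB : C = B
          · subst hCB
            have := hs hv
            rw [Finset.mem_insert] at this
            rcases this with h' | h'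
            · exact hvw h'
            · exact hF.2 h'
          · apply hF.1.2 C hC
            intro x hx
            have := hs hx
            rw [Finset.mem_insert] at this
            rcases this with rfl | h'
            · exact absurd hw (Finset.disjoint_left.1 (hd hC hB hCB) hx)
            · exact h'
        · rw [Finset.mem_insert]
          rintro (h' | h')
          · exact hvw h'
          · exact hF.2 h'
      · rw [mem_del]
        exact ⟨empty_mem_jb h, by simp⟩
    · rw [link_jb hvf]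
      exact ih _ g1 g2 (by omega)

lemma pureOf_jb (ℬ : Finset (Finset ℕ))
    (hd : (ℬ : Set (Finset ℕ)).PairwiseDisjoint id) (d : ℕ)
    (hs : ∑ B ∈ ℬ, B.card = d + ℬ.card) : PureOf d (jbFaces ℬ) := by
  classical
  refine ⟨fun σ hσ => card_jb ℬ hd d hs hσ, fun σ hσ => ?_⟩
  have h1 : ∀ B ∈ ℬ, ∃ x ∈ B, x ∉ σ := by
    intro B hB
    rw [mem_jbFaces] at hσ
    have := hσ.2 B hB
    rw [Finset.not_subset] at this
    exact this
  let c : Finset ℕ → ℕ := fun B => if hB : B ∈ ℬ then (h1 B hB).choose else 0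
  have hc : ∀ B ∈ ℬ, c B ∈ B ∧ c B ∉ σ := by
    intro B hB
    simp only [c, dif_pos hB]
    exact (h1 B hB).choose_spec
  have hcinj : Set.InjOn c (ℬ : Set (Finset ℕ)) := by
    intro B hB C hC h
    by_contra hBC
    exact Finset.disjoint_left.1 (hd hB hC hBC) (hc B hB).1 (by rw [h]; exact (hc C hC).1)
  have himg : ℬ.image c ⊆ ℬ.sup id := by
    intro x hx
    obtain ⟨B, hB, rfl⟩ := Finset.mem_image.1 hx
    exact mem_supB.2 ⟨B, hB, (hc B hB).1⟩
  refine ⟨ℬ.sup id \ ℬ.image c, ?_, ?_, ?_⟩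
  · rw [mem_jbFaces]
    refine ⟨Finset.sdiff_subset, fun B hB hs => ?_⟩
    have := hs (hc B hB).1
    rw [Finset.mem_sdiff] at this
    exact this.2 (Finset.mem_image_of_mem _ hB)
  · intro x hx
    rw [Finset.mem_sdiff]
    refine ⟨(mem_jbFaces.1 hσ).1 hx, fun h => ?_⟩
    obtain ⟨B, hB, rfl⟩ := Finset.mem_image.1 h
    exact (hc B hB).2 hx
  · have h2 : (ℬ.sup id).card = ∑ B ∈ ℬ, B.card := by
      rw [Finset.sup_eq_biUnion, Finset.card_biUnion]
      · rfl
      · exact hd
    rw [Finset.card_sdiff_of_subset himg, Finset.card_image_of_injOn hcinj, h2, hs]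
    omega

/-- Joins of boundary complexes of simplices are `ℤ/2`-homology spheres. -/
theorem isSphere_jb (ℬ : Finset (Finset ℕ)) (h : ∅ ∉ ℬ)
    (hd : (ℬ : Set (Finset ℕ)).PairwiseDisjoint id) (d : ℕ)
    (hs : ∑ B ∈ ℬ, B.card = d + ℬ.card) : IsSphere (ZMod 2) d (joinBdry ℬ h) := by
  refine ⟨pureOf_jb ℬ hd d hs, fun σ hσ => ?_⟩
  have hσ' : σ ∈ jbFaces ℬ := hσ
  obtain ⟨g1, g2, g3, g4⟩ := blocks_link hd hσ'
  change SphereHom (ZMod 2) (link (jbFaces ℬ) σ) (d - σ.card)
  rw [link_jb hσ']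
  have := card_jb ℬ hd d hs hσ'
  exact sphereHom_jb _ _ g1 g2 (by omega)

theorem inS_jb (ℬ : Finset (Finset ℕ)) (h : ∅ ∉ ℬ)
    (hd : (ℬ : Set (Finset ℕ)).PairwiseDisjoint id) (d i : ℕ)
    (hs : ∑ B ∈ ℬ, B.card = d + ℬ.card) (hi : ∀ B ∈ ℬ, B.card ≤ i + 1) :
    InS i d (joinBdry ℬ h) := by
  refine ⟨isSphere_jb ℬ h hd d hs, fun τ hτ hm => ?_⟩
  have h1 : τ ⊆ ℬ.sup id := by
    intro x hx
    have := mem_verts.1 (hτ hx)
    exact (mem_jbFaces.1 this).1 (Finset.mem_singleton_self x)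
  have h2 : τ ∉ jbFaces ℬ := hm.1
  rw [mem_jbFaces] at h2
  push Not at h2
  obtain ⟨B, hB, hBτ⟩ := h2 h1
  rcases eq_or_ne B τ with rfl | hne
  · exact hi _ hB
  · have h3 := hm.2 B (Finset.ssubset_iff_subset_ne.2 ⟨hBτ, hne⟩)
    exact absurd (Finset.Subset.refl B) ((mem_jbFaces.1 h3).2 B hB)

/-! ### `h`-numbers -/

open Polynomial

/-- the `h`-polynomial -/
noncomputable def hPoly (d : ℕ) (Y : Finset (Finset ℕ)) : ℤ[X] :=
  ∑ F ∈ Y, (X : ℤ[X]) ^ F.card * (1 - X) ^ (d - F.card)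

lemma coeff_one_sub_pow (n j : ℕ) : ((1 - X : ℤ[X]) ^ n).coeff j = (-1) ^ j * (n.choose j : ℤ) := by
  have h1 : (1 - X : ℤ[X]) = (1 + X).comp (-X) := by simp [sub_eq_add_neg]
  have h2 : ((1 - X : ℤ[X]) ^ n) = ((1 + X) ^ n : ℤ[X]).comp (-X) := by
    rw [h1, pow_comp]
  have h3 : (-X : ℤ[X]) = C (-1) * X := by simp
  rw [h2, h3, comp_C_mul_X_coeff, coeff_one_add_X_pow, mul_comm]

lemma coeff_hPoly {d : ℕ} {Y : Finset (Finset ℕ)} (hY : ∀ F ∈ Y, F.card ≤ d) {j : ℕ} (hj : j ≤ d) :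
    (hPoly d Y).coeff j = hNum d Y j := by
  classical
  unfold hPoly hNum
  rw [Polynomial.finsetSum_coeff]
  have h1 : ∀ F ∈ Y, ((X : ℤ[X]) ^ F.card * (1 - X) ^ (d - F.card)).coeff j =
      if F.card ≤ j then (-1) ^ (j - F.card) * ((d - F.card).choose (d - j) : ℤ) else 0 := by
    intro F hF
    rw [Polynomial.coeff_X_pow_mul']
    split_ifs with h
    · rw [coeff_one_sub_pow]
      congr 2
      have := hY F hF
      rw [← Nat.choose_symm (n := d - F.card) (k := j - F.card) (by omega)]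
      congr 1
      omega
    · rfl
  rw [Finset.sum_congr rfl h1, ← Finset.sum_filter]
  rw [← Finset.sum_fiberwise_of_maps_to (s := Y.filter fun F => F.card ≤ j) (t := range (j + 1))
    (g := Finset.card) (fun F hF => Finset.mem_range.2 (by
      have := (Finset.mem_filter.1 hF).2; omega))]
  refine Finset.sum_congr rfl fun i hi => ?_
  rw [Finset.mem_range] at hi
  have h2 : (Y.filter fun F => F.card ≤ j).filter (fun F => F.card = i) = level Y i := by
    ext F
    rw [mem_level, Finset.mem_filter, Finset.mem_filter]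
    constructor
    · exact fun h => ⟨h.1.1, h.2⟩
    · exact fun h => ⟨⟨h.1, by omega⟩, h.2⟩
  rw [h2, Finset.sum_congr rfl (g := fun _ => (-1) ^ (j - i) * ((d - i).choose (d - j) : ℤ))
    (fun F hF => by rw [(mem_level.1 hF).2]), Finset.sum_const, nsmul_eq_mul, mul_comm]
  rfl

/-- the `h`-polynomial of a join of boundary complexes of simplices -/
lemma hPoly_jb (ℬ : Finset (Finset ℕ)) (hd : (ℬ : Set (Finset ℕ)).PairwiseDisjoint id) (d : ℕ)
    (hs : ∑ B ∈ ℬ, B.card = d + ℬ.card) :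
    hPoly d (jbFaces ℬ) * (1 - X) ^ ℬ.card = ∏ B ∈ ℬ, (1 - (X : ℤ[X]) ^ B.card) := by
  classical
  apply Polynomial.map_injective (Int.castRingHom ℚ) Int.cast_injective
  apply Polynomial.eq_of_infinite_eval_eq
  refine Set.Infinite.mono (s := {x : ℚ | x ≠ 1}) ?_ ?_
  · intro x hx
    have hx1 : (1 - x) ≠ 0 := sub_ne_zero.2 (Ne.symm hx)
    rw [Set.mem_ofPred_eq]
    have hf := congrArg (Polynomial.eval₂ (Int.castRingHom ℚ) (x / (1 - x))) (fPoly_jb ℬ hd)
    unfold fPoly at hf
    rw [Polynomial.eval₂_finsetSum, Polynomial.eval₂_finsetProd] at hf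
    simp only [Polynomial.eval₂_pow, Polynomial.eval₂_X, Polynomial.eval₂_sub,
      Polynomial.eval₂_add, Polynomial.eval₂_one] at hf
    simp only [Polynomial.map_mul, Polynomial.map_pow, Polynomial.map_sub, Polynomial.map_one,
      Polynomial.map_X, Polynomial.eval_mul, Polynomial.eval_pow, Polynomial.eval_sub,
      Polynomial.eval_one, Polynomial.eval_X, Polynomial.map_prod, Polynomial.eval_prod]
    have h1 : Polynomial.eval x (Polynomial.map (Int.castRingHom ℚ) (hPoly d (jbFaces ℬ))) =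
        (1 - x) ^ d * ∑ F ∈ jbFaces ℬ, (x / (1 - x)) ^ F.card := by
      unfold hPoly
      rw [Polynomial.map_sum, Polynomial.eval_finsetSum, Finset.mul_sum]
      refine Finset.sum_congr rfl fun F hF => ?_
      simp only [Polynomial.map_mul, Polynomial.map_pow, Polynomial.map_sub, Polynomial.map_one,
        Polynomial.map_X, Polynomial.eval_mul, Polynomial.eval_pow, Polynomial.eval_sub,
        Polynomial.eval_one, Polynomial.eval_X]
      have := card_jb ℬ hd d hs hF
      rw [div_pow]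
      have h2 : (1 - x) ^ d = (1 - x) ^ (d - F.card) * (1 - x) ^ F.card := by
        rw [← pow_add]; congr 1; omega
      rw [h2]
      field_simp
    rw [h1, hf]
    have h3 : ∀ B ∈ ℬ, ((1 + x / (1 - x)) ^ B.card - (x / (1 - x)) ^ B.card) =
        (1 - x ^ B.card) * ((1 - x) ^ B.card)⁻¹ := by
      intro B _
      have h4 : (1 + x / (1 - x)) = 1 / (1 - x) := by field_simp; ring
      rw [h4, div_pow, div_pow, one_pow]
      field_simp
    rw [Finset.prod_congr rfl h3, Finset.prod_mul_distrib, Finset.prod_inv_distrib,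
      Finset.prod_pow_eq_pow_sum, hs, pow_add]
    field_simp
  · have : {x : ℚ | x ≠ 1} = {1}ᶜ := by ext; simp
    rw [this]
    exact (Set.finite_singleton (1 : ℚ)).infinite_compl

lemma gNum_eq_coeff {d : ℕ} {Y : Finset (Finset ℕ)} (hY : ∀ F ∈ Y, F.card ≤ d) {j : ℕ} (hj : j + 1 ≤ d) :
    gNum d Y (j + 1) = ((1 - X) * hPoly d Y).coeff (j + 1) := by
  unfold gNum
  rw [if_neg (Nat.succ_ne_zero j), Nat.add_sub_cancel, sub_mul, one_mul, Polynomial.coeff_sub,
    Polynomial.coeff_X_mul, coeff_hPoly hY hj, coeff_hPoly hY (by omega)]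

end Pool.Agent.R140.Sph
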