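import Pool.Agent.R140.JB

set_option autoImplicit false

/-!
# Counting missing faces
-/

open Finset

namespace Pool.Agent.R140.Sph

lemma exists_bijOn_of_fibers {α β γ : Type} [DecidableEq α] [DecidableEq β] [DecidableEq γ]
    [Inhabited β] (A : Finset α) (B : Finset β) (f : α → γ) (g : β → γ)
    (h : ∀ c, (A.filter fun x => f x = c).card = (B.filter fun y => g y = c).card) :
    ∃ e : α → β, Set.BijOn e A B ∧ ∀ x ∈ A, g (e x) = f x := by
  classical
  let E : ∀ c, (A.filter fun x => f x = c) ≃ (B.filter fun y => g y = c) := fun c =>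
    Finset.equivOfCardEq (h c)
  let e : α → β := fun x => if hx : x ∈ A then
    (E (f x) ⟨x, Finset.mem_filter.2 ⟨hx, rfl⟩⟩).1 else default
  have he : ∀ x (hx : x ∈ A), e x = (E (f x) ⟨x, Finset.mem_filter.2 ⟨hx, rfl⟩⟩).1 := by
    intro x hx
    simp only [e, dif_pos hx]
  have hmem : ∀ x ∈ A, e x ∈ B ∧ g (e x) = f x := by
    intro x hx
    rw [he x hx]
    exact Finset.mem_filter.1 (E (f x) ⟨x, Finset.mem_filter.2 ⟨hx, rfl⟩⟩).2
  have hE : ∀ x (hx : x ∈ A) c (hc : f x = c),
      e x = (E c ⟨x, Finset.mem_filter.2 ⟨hx, hc⟩⟩).1 := by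
    intro x hx c hc
    subst hc
    exact he x hx
  refine ⟨e, ⟨fun x hx => (hmem x hx).1, ?_, ?_⟩, fun x hx => (hmem x hx).2⟩
  · intro x hx y hy hxy
    have h1 : f x = f y := by
      rw [← (hmem x hx).2, ← (hmem y hy).2, hxy]
    rw [hE x hx (f y) h1, hE y hy (f y) rfl] at hxy
    have h2 := (E (f y)).injective (Subtype.ext hxy)
    exact congrArg Subtype.val h2
  · intro y hy
    have hy' : y ∈ B.filter fun z => g z = g y := Finset.mem_filter.2 ⟨hy, rfl⟩
    obtain ⟨⟨x, hx⟩, hxy⟩ := (E (g y)).surjective ⟨y, hy'⟩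
    have hx' := Finset.mem_filter.1 hx
    refine ⟨x, hx'.1, ?_⟩
    rw [hE x hx'.1 (g y) hx'.2, hxy]

/-- The missing faces (on the vertex set) with `s` elements. -/
noncomputable def missN (X : Cplx) (s : ℕ) : Finset (Finset ℕ) := by
  classical
  exact ((verts X).powersetCard s).filter fun τ => IsMissing X τ

lemma mem_missN {X : Cplx} {s : ℕ} {τ : Finset ℕ} :
    τ ∈ missN X s ↔ τ ⊆ verts X ∧ τ.card = s ∧ IsMissing X τ := by
  unfold missN
  simp only [Finset.mem_filter, Finset.mem_powersetCard]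
  tauto

lemma exists_missing {X : Cplx} {S : Finset ℕ} (hS : S ∉ X.faces) :
    ∃ τ ⊆ S, IsMissing X τ := by
  classical
  induction S using Finset.strongInduction with
  | H S ih =>
    by_cases h : ∀ ρ ⊂ S, ρ ∈ X.faces
    · exact ⟨S, Finset.Subset.refl S, hS, h⟩
    · push Not at h
      obtain ⟨ρ, hρ, hρ2⟩ := h
      obtain ⟨τ, h1, h2⟩ := ih ρ hρ hρ2
      exact ⟨τ, h1.trans hρ.subset, h2⟩

/-- the number of supersets -/
lemma card_supersets (V τ : Finset ℕ) (hτ : τ ⊆ V) (s : ℕ) (hs : τ.card ≤ s) :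
    ((V.powersetCard s).filter fun S => τ ⊆ S).card = (V.card - τ.card).choose (s - τ.card) := by
  classical
  rw [← Finset.card_sdiff_of_subset hτ, ← Finset.card_powersetCard]
  refine Finset.card_bij' (fun S _ => S \ τ) (fun S _ => S ∪ τ) ?_ ?_ ?_ ?_
  · intro S hS
    rw [Finset.mem_filter, Finset.mem_powersetCard] at hS
    rw [Finset.mem_powersetCard]
    refine ⟨Finset.sdiff_subset_sdiff hS.1.1 (Finset.Subset.refl _), ?_⟩
    rw [Finset.card_sdiff_of_subset hS.2, hS.1.2]
  · intro S hS
    rw [Finset.mem_powersetCard] at hS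
    rw [Finset.mem_filter, Finset.mem_powersetCard]
    have hd : Disjoint S τ := Finset.disjoint_of_subset_left hS.1 Finset.sdiff_disjoint
    refine ⟨⟨Finset.union_subset (hS.1.trans Finset.sdiff_subset) hτ, ?_⟩,
      Finset.subset_union_right⟩
    rw [Finset.card_union_of_disjoint hd, hS.2]
    omega
  · intro S hS
    rw [Finset.mem_filter] at hS
    exact Finset.sdiff_union_of_subset hS.2
  · intro S hS
    rw [Finset.mem_powersetCard] at hS
    have hd : Disjoint S τ := Finset.disjoint_of_subset_left hS.1 Finset.sdiff_disjoint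
    rw [Finset.union_sdiff_right, Finset.sdiff_eq_self_of_disjoint hd]

/-- the `s`-subsets of the vertex set which are not faces -/
noncomputable def nonf (X : Cplx) (s : ℕ) : Finset (Finset ℕ) :=
  ((verts X).powersetCard s).filter fun S => S ∉ X.faces

lemma card_nonf (X : Cplx) (s : ℕ) :
    (nonf X s).card + numFaces X.faces s = (verts X).card.choose s := by
  classical
  rw [← Finset.card_powersetCard, ← Finset.card_filter_add_card_filter_not
    (s := (verts X).powersetCard s) (fun S => S ∉ X.faces)]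
  unfold nonf numFaces level
  congr 2
  ext S
  simp only [Finset.mem_filter, Finset.mem_powersetCard, not_not]
  constructor
  · exact fun h => ⟨⟨face_sub h.1, h.2⟩, h.1⟩
  · exact fun h => ⟨h.2, h.1.2⟩

open Classical in
lemma card_nonf_split (X : Cplx) (s : ℕ) :
    (nonf X s).card = (((verts X).powersetCard s).filter fun S =>
      ∃ t < s, ∃ τ ∈ missN X t, τ ⊆ S).card + (missN X s).card := by
  rw [← Finset.card_union_of_disjoint]
  · congr 1
    ext S
    unfold nonf
    simp only [Finset.mem_filter, Finset.mem_union, mem_missN, Finset.mem_powersetCard]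
    constructor
    · rintro ⟨⟨h1, h2⟩, h3⟩
      obtain ⟨τ, h4, h5⟩ := exists_missing h3
      by_cases h6 : τ = S
      · subst h6
        exact Or.inr ⟨h1, h2, h5⟩
      · left
        refine ⟨⟨h1, h2⟩, τ.card, ?_, τ, ⟨h4.trans h1, rfl, h5⟩, h4⟩
        rw [← h2]
        exact Finset.card_lt_card (Finset.ssubset_iff_subset_ne.2 ⟨h4, h6⟩)
    · rintro (⟨⟨h1, h2⟩, t, ht, τ, h3, h4⟩ | ⟨h1, h2, h3⟩)
      · exact ⟨⟨h1, h2⟩, fun h => h3.2.2.1 (X.down S h τ h4)⟩
      · exact ⟨⟨h1, h2⟩, h3.1⟩
  · rw [Finset.disjoint_left]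
    intro S hS hS'
    rw [Finset.mem_filter] at hS
    rw [mem_missN] at hS'
    obtain ⟨_, t, ht, τ, h3, h4⟩ := hS
    rw [mem_missN] at h3
    have h5 : τ ⊂ S := by
      refine Finset.ssubset_iff_subset_ne.2 ⟨h4, ?_⟩
      rintro rfl
      omega
    exact h3.2.2.1 (hS'.2.2.2 τ h5)

/-- If `X` and `Y` have the same face numbers and `Y` has at most one missing face with fewer than
`L` elements, then `X` and `Y` have the same numbers of missing faces with at most `L` elements. -/
lemma count_missing {X Y : Cplx} (hf : ∀ s, numFaces X.faces s = numFaces Y.faces s) (L : ℕ)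
    (hY : ∀ t < L, ∀ t' < L, ∀ τ ∈ missN Y t, ∀ τ' ∈ missN Y t', τ = τ') :
    ∀ s ≤ L, (missN X s).card = (missN Y s).card := by
  classical
  have hn : (verts X).card = (verts Y).card := by
    rw [← numFaces_one, ← numFaces_one, hf]
  have hnf : ∀ s, (nonf X s).card = (nonf Y s).card := by
    intro s
    have h1 := card_nonf X s
    have h2 := card_nonf Y s
    rw [hf s, hn] at h1
    omega
  intro s
  induction s using Nat.strong_induction_on with
  | _ s ih =>
    intro hs
    have h1 := card_nonf_split X s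
    have h2 := card_nonf_split Y s
    have h3 : (((verts X).powersetCard s).filter fun S =>
        ∃ t < s, ∃ τ ∈ missN X t, τ ⊆ S).card = (((verts Y).powersetCard s).filter fun S =>
        ∃ t < s, ∃ τ ∈ missN Y t, τ ⊆ S).card := by
      by_cases hex : ∃ t < s, ∃ τ, τ ∈ missN Y t
      · obtain ⟨t, ht, τ, hτ⟩ := hex
        have hYt : missN Y t = {τ} := by
          ext σ
          rw [Finset.mem_singleton]
          constructor
          · intro hσ
            exact hY t (by omega) t (by omega) σ hσ τ hτ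
          · rintro rfl
            exact hτ
        have hXt : (missN X t).card = 1 := by
          rw [ih t ht (by omega), hYt, Finset.card_singleton]
        obtain ⟨σ, hσ⟩ := Finset.card_eq_one.1 hXt
        have hYo : ∀ t' < s, t' ≠ t → missN Y t' = ∅ := by
          intro t' ht' hne
          rw [Finset.eq_empty_iff_forall_notMem]
          intro τ' hτ'
          have h4 := hY t' (by omega) t (by omega) τ' hτ' τ hτ
          subst h4
          exact hne ((mem_missN.1 hτ').2.1.symm.trans (mem_missN.1 hτ).2.1)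
        have hXo : ∀ t' < s, t' ≠ t → missN X t' = ∅ := by
          intro t' ht' hne
          rw [← Finset.card_eq_zero, ih t' ht' (by omega), hYo t' ht' hne, Finset.card_empty]
        have hσ' : σ ∈ missN X t := by rw [hσ]; exact Finset.mem_singleton_self _
        rw [mem_missN] at hτ hσ'
        have h5 : (((verts X).powersetCard s).filter fun S =>
            ∃ t < s, ∃ τ ∈ missN X t, τ ⊆ S) =
            ((verts X).powersetCard s).filter fun S => σ ⊆ S := by
          refine Finset.filter_congr fun S _ => ?_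
          constructor
          · rintro ⟨t', ht', τ', hτ', hs'⟩
            by_cases hne : t' = t
            · subst hne
              rw [hσ, Finset.mem_singleton] at hτ'
              exact hτ' ▸ hs'
            · rw [hXo t' ht' hne] at hτ'
              exact absurd hτ' (Finset.notMem_empty _)
          · intro h
            exact ⟨t, ht, σ, mem_missN.2 hσ', h⟩
        have h6 : (((verts Y).powersetCard s).filter fun S =>
            ∃ t < s, ∃ τ ∈ missN Y t, τ ⊆ S) =
            ((verts Y).powersetCard s).filter fun S => τ ⊆ S := by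
          refine Finset.filter_congr fun S _ => ?_
          constructor
          · rintro ⟨t', ht', τ', hτ', hs'⟩
            have := hY t' (by omega) t (by omega) τ' hτ' τ (mem_missN.2 hτ)
            exact this ▸ hs'
          · intro h
            exact ⟨t, ht, τ, mem_missN.2 hτ, h⟩
        rw [h5, h6, card_supersets _ _ hσ'.1 _ (by omega), card_supersets _ _ hτ.1 _ (by omega),
          hn, hσ'.2.1, hτ.2.1]
      · push Not at hex
        have h5 : (((verts Y).powersetCard s).filter fun S =>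
            ∃ t < s, ∃ τ ∈ missN Y t, τ ⊆ S) = ∅ := by
          rw [Finset.filter_eq_empty_iff]
          rintro S _ ⟨t, ht, τ, hτ, _⟩
          exact hex t ht τ hτ
        have h6 : (((verts X).powersetCard s).filter fun S =>
            ∃ t < s, ∃ τ ∈ missN X t, τ ⊆ S) = ∅ := by
          rw [Finset.filter_eq_empty_iff]
          rintro S _ ⟨t, ht, τ, hτ, _⟩
          have h7 : (missN X t).card = 0 := by
            rw [ih t ht (by omega), Finset.card_eq_zero, Finset.eq_empty_iff_forall_notMem]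
            exact hex t ht
          rw [Finset.card_eq_zero] at h7
          rw [h7] at hτ
          exact absurd hτ (Finset.notMem_empty _)
        rw [h5, h6]
    have h4 := hnf s
    omega

/-- all missing faces on the vertex set -/
noncomputable def miss (X : Cplx) : Finset (Finset ℕ) := by
  classical
  exact (verts X).powerset.filter fun τ => IsMissing X τ

lemma mem_miss {X : Cplx} {τ : Finset ℕ} : τ ∈ miss X ↔ τ ⊆ verts X ∧ IsMissing X τ := by
  unfold miss
  simp only [Finset.mem_filter, Finset.mem_powerset]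

lemma face_iff_miss {X : Cplx} {F : Finset ℕ} (hF : F ⊆ verts X) :
    F ∈ X.faces ↔ ∀ τ ∈ miss X, ¬ τ ⊆ F := by
  constructor
  · intro h τ hτ hs
    exact (mem_miss.1 hτ).2.1 (X.down F h τ hs)
  · intro h
    by_contra hF2
    obtain ⟨τ, h1, h2⟩ := exists_missing hF2
    exact h τ (mem_miss.2 ⟨h1.trans hF, h2⟩) h1

/-- A complex with few missing faces: if all faces have at most `d` elements and there are at most
`n - d` missing faces, then there are exactly `n - d` of them and they are pairwise disjoint. -/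
lemma miss_disjoint {X : Cplx} {d : ℕ} (hd : ∀ F ∈ X.faces, F.card ≤ d)
    (hm : (miss X).card + d ≤ (verts X).card) :
    ((miss X : Finset (Finset ℕ)) : Set (Finset ℕ)).PairwiseDisjoint id := by
  classical
  have hne : ∀ τ ∈ miss X, τ.Nonempty := by
    intro τ hτ
    rw [Finset.nonempty_iff_ne_empty]
    rintro rfl
    exact (mem_miss.1 hτ).2.1 X.empty_mem
  have key : ∀ t : Finset ℕ → ℕ, (∀ τ ∈ miss X, t τ ∈ τ) → Set.InjOn t (miss X) := by
    intro t ht
    have h1 : verts X \ (miss X).image t ∈ X.faces := by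
      rw [face_iff_miss Finset.sdiff_subset]
      intro τ hτ hs
      have h2 := hs (ht τ hτ)
      rw [Finset.mem_sdiff] at h2
      exact h2.2 (Finset.mem_image_of_mem t hτ)
    have h2 := hd _ h1
    have h3 : (miss X).image t ⊆ verts X := by
      intro x hx
      obtain ⟨τ, hτ, rfl⟩ := Finset.mem_image.1 hx
      exact (mem_miss.1 hτ).1 (ht τ hτ)
    rw [Finset.card_sdiff_of_subset h3] at h2
    have h4 : (miss X).card ≤ ((miss X).image t).card := by omega
    exact Finset.card_image_iff.1 (le_antisymm Finset.card_image_le h4)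
  intro τ hτ τ' hτ' hne'
  change Disjoint τ τ'
  rw [Finset.disjoint_left]
  intro x hx hx'
  have hτm : τ ∈ miss X := hτ
  have hτm' : τ' ∈ miss X := hτ'
  let t : Finset ℕ → ℕ := fun σ => if x ∈ σ then x else if h : σ.Nonempty then h.choose else 0
  have h1 : ∀ σ ∈ miss X, t σ ∈ σ := by
    intro σ hσ
    simp only [t]
    split_ifs with h1 h2
    · exact h1
    · exact h2.choose_spec
    · exact absurd (hne σ hσ) h2
  have h2 := key t h1 hτ hτ' (by simp only [t, if_pos hx, if_pos hx'])
  exact hne' h2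

/-- isomorphisms of joins of boundary complexes -/
lemma iso_jb (M ℬ : Finset (Finset ℕ)) (hM : (M : Set (Finset ℕ)).PairwiseDisjoint id)
    (hB : (ℬ : Set (Finset ℕ)).PairwiseDisjoint id) (e : Finset ℕ → Finset ℕ)
    (he : Set.BijOn e M ℬ) (hc : ∀ τ ∈ M, (e τ).card = τ.card) :
    ∃ φ : ℕ → ℕ, Set.BijOn φ ((M.sup id : Finset ℕ) : Set ℕ) ((ℬ.sup id : Finset ℕ) : Set ℕ) ∧
      ∀ F ⊆ M.sup id, (F ∈ jbFaces M ↔ F.image φ ∈ jbFaces ℬ) := by
  classical
  have exM : ∀ x, x ∈ M.sup id ↔ ∃ τ ∈ M, x ∈ τ := fun x => by rw [Finset.mem_sup]; rfl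
  have exB : ∀ x, x ∈ ℬ.sup id ↔ ∃ τ ∈ ℬ, x ∈ τ := fun x => by rw [Finset.mem_sup]; rfl
  let f : ℕ → Finset ℕ := fun x => if h : ∃ τ ∈ M, x ∈ τ then e h.choose else ∅
  let g : ℕ → Finset ℕ := fun x => if h : ∃ τ ∈ ℬ, x ∈ τ then h.choose else ∅
  have hf : ∀ τ ∈ M, ∀ x ∈ τ, f x = e τ := by
    intro τ hτ x hx
    have h : ∃ τ ∈ M, x ∈ τ := ⟨τ, hτ, hx⟩
    have h1 : f x = e h.choose := dif_pos h
    rw [h1]
    congr 1
    by_contra hne
    exact Finset.disjoint_left.1 (hM h.choose_spec.1 hτ hne) h.choose_spec.2 hx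
  have hg : ∀ τ ∈ ℬ, ∀ x ∈ τ, g x = τ := by
    intro τ hτ x hx
    have h : ∃ τ ∈ ℬ, x ∈ τ := ⟨τ, hτ, hx⟩
    have h1 : g x = h.choose := dif_pos h
    rw [h1]
    by_contra hne
    exact Finset.disjoint_left.1 (hB h.choose_spec.1 hτ hne) h.choose_spec.2 hx
  obtain ⟨φ, hφ, hφg⟩ := exists_bijOn_of_fibers (M.sup id) (ℬ.sup id) f g (by
    intro c
    by_cases hcB : c ∈ ℬ
    · obtain ⟨τ, hτ, rfl⟩ := he.surjOn hcB
      have h1 : (M.sup id).filter (fun x => f x = e τ) = τ := by
        ext x
        rw [Finset.mem_filter, exM]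
        constructor
        · rintro ⟨⟨σ, hσ, hx⟩, h2⟩
          rw [hf σ hσ x hx] at h2
          rw [← he.injOn hσ hτ h2]
          exact hx
        · intro hx
          exact ⟨⟨τ, hτ, hx⟩, hf τ hτ x hx⟩
      have h2 : (ℬ.sup id).filter (fun x => g x = e τ) = e τ := by
        ext x
        rw [Finset.mem_filter, exB]
        constructor
        · rintro ⟨⟨σ, hσ, hx⟩, h2⟩
          rw [hg σ hσ x hx] at h2
          rw [← h2]
          exact hx
        · intro hx
          exact ⟨⟨e τ, hcB, hx⟩, hg _ hcB x hx⟩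
      rw [h1, h2, hc τ hτ]
    · have h1 : (M.sup id).filter (fun x => f x = c) = ∅ := by
        rw [Finset.filter_eq_empty_iff]
        intro x hx h2
        obtain ⟨τ, hτ, hx⟩ := (exM x).1 hx
        rw [hf τ hτ x hx] at h2
        exact hcB (h2 ▸ he.mapsTo hτ)
      have h2 : (ℬ.sup id).filter (fun x => g x = c) = ∅ := by
        rw [Finset.filter_eq_empty_iff]
        intro x hx h2
        obtain ⟨τ, hτ, hx⟩ := (exB x).1 hx
        rw [hg τ hτ x hx] at h2
        exact hcB (h2 ▸ hτ)
      rw [h1, h2])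
  refine ⟨φ, hφ, fun F hF => ?_⟩
  -- `φ` maps `τ` onto `e τ`
  have hblock : ∀ τ ∈ M, ∀ x ∈ M.sup id, (φ x ∈ e τ ↔ x ∈ τ) := by
    intro τ hτ x hx
    obtain ⟨σ, hσ, hxσ⟩ := (exM x).1 hx
    have h1 := hφg x hx
    rw [hf σ hσ x hxσ] at h1
    obtain ⟨B, hB', hxB⟩ := (exB (φ x)).1 (hφ.mapsTo hx)
    rw [hg B hB' _ hxB] at h1
    subst h1
    constructor
    · intro h2
      have h3 := hg _ (he.mapsTo hτ) _ h2
      rw [hg _ hB' _ hxB] at h3
      rw [← he.injOn hσ hτ h3]
      exact hxσ
    · intro h2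
      have h3 : σ = τ := by
        by_contra hne
        exact Finset.disjoint_left.1 (hM hσ hτ hne) hxσ h2
      rw [← h3]
      exact hxB
  have hsub : F.image φ ⊆ ℬ.sup id := by
    intro y hy
    obtain ⟨x, hx, rfl⟩ := Finset.mem_image.1 hy
    exact hφ.mapsTo (hF hx)
  rw [mem_jbFaces, mem_jbFaces]
  constructor
  · rintro ⟨_, h1⟩
    refine ⟨hsub, ?_⟩
    intro B hB' hs
    obtain ⟨τ, hτ, rfl⟩ := he.surjOn hB'
    apply h1 τ hτ
    intro x hx
    have hxM : x ∈ M.sup id := (exM x).2 ⟨τ, hτ, hx⟩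
    obtain ⟨y, hy, hyx⟩ := Finset.mem_image.1 (hs ((hblock τ hτ x hxM).2 hx))
    have := hφ.injOn (hF hy) hxM hyx
    exact this ▸ hy
  · rintro ⟨_, h1⟩
    refine ⟨hF, ?_⟩
    intro τ hτ hs
    apply h1 (e τ) (he.mapsTo hτ)
    intro y hy
    obtain ⟨x, hx, rfl⟩ := hφ.surjOn ((exB y).2 ⟨e τ, he.mapsTo hτ, hy⟩)
    exact Finset.mem_image_of_mem φ (hs ((hblock τ hτ x hx).1 hy))

/-- missing faces of a join of boundary complexes -/
lemma missing_jb (ℬ : Finset (Finset ℕ)) (h : ∅ ∉ ℬ)
    (hd : (ℬ : Set (Finset ℕ)).PairwiseDisjoint id) (h2 : ∀ B ∈ ℬ, 2 ≤ B.card) :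
    miss (joinBdry ℬ h) = ℬ := by
  classical
  ext τ
  rw [mem_miss, verts_jb ℬ h h2]
  constructor
  · rintro ⟨h3, h4, h5⟩
    change τ ∉ jbFaces ℬ at h4
    rw [mem_jbFaces] at h4
    push Not at h4
    obtain ⟨B, hB, hs⟩ := h4 h3
    by_cases heq : B = τ
    · exact heq ▸ hB
    · have h6 : B ∈ jbFaces ℬ := h5 B (Finset.ssubset_iff_subset_ne.2 ⟨hs, heq⟩)
      rw [mem_jbFaces] at h6
      exact absurd (Finset.Subset.refl B) (h6.2 B hB)
  · intro hτ
    have h3 : τ ⊆ ℬ.sup id := fun x hx => Finset.mem_sup.2 ⟨τ, hτ, hx⟩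
    refine ⟨h3, ?_, ?_⟩
    · change τ ∉ jbFaces ℬ
      rw [mem_jbFaces]
      intro h4
      exact h4.2 τ hτ (Finset.Subset.refl _)
    · intro ρ hρ
      change ρ ∈ jbFaces ℬ
      rw [mem_jbFaces]
      refine ⟨hρ.subset.trans h3, ?_⟩
      intro B hB hs
      by_cases heq : B = τ
      · subst heq
        exact (Finset.ssubset_iff_subset_ne.1 hρ).2 (Finset.Subset.antisymm hρ.subset hs)
      · obtain ⟨x, hx⟩ : B.Nonempty := by
          rw [← Finset.card_pos]
          have := h2 B hB
          omega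
        exact Finset.disjoint_left.1 (hd hB hτ heq) hx (hρ.subset (hs hx))

lemma missN_eq_filter (X : Cplx) (s : ℕ) : missN X s = (miss X).filter fun τ => τ.card = s := by
  ext τ
  rw [mem_missN, Finset.mem_filter, mem_miss]
  tauto

/-- **Uniqueness.** Let `ℬ` be a family of pairwise disjoint sets, with sizes between `2` and
`L + 1`, at most one of which has at most `L` elements, and let `d` be the number of elements of
the union minus the number of sets.  A complex `X` of dimension at most `d - 1` with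
Dehn-Sommerville symmetry, all of whose missing faces have at most `L + 1` elements, and with the
`g`-numbers of the join `K` of the boundary complexes is isomorphic to `K`. -/
theorem unique_jb (ℬ : Finset (Finset ℕ)) (h : ∅ ∉ ℬ)
    (hdis : (ℬ : Set (Finset ℕ)).PairwiseDisjoint id) (h2 : ∀ B ∈ ℬ, 2 ≤ B.card) (d L : ℕ)
    (hs : ∑ B ∈ ℬ, B.card = d + ℬ.card) (hL : ∀ B ∈ ℬ, B.card ≤ L + 1)
    (hone : ∀ B ∈ ℬ, ∀ B' ∈ ℬ, B.card ≤ L → B'.card ≤ L → B = B')
    {X : Cplx} (hX : ∀ F ∈ X.faces, F.card ≤ d)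
    (sX : (fPoly X.faces).comp (-1 - Polynomial.X) = (-1) ^ d * fPoly X.faces)
    (hmX : ∀ τ ⊆ verts X, IsMissing X τ → τ.card ≤ L + 1)
    (hg : ∀ j ≤ d / 2, gNum d X.faces j = gNum d (joinBdry ℬ h).faces j) :
    Iso X (joinBdry ℬ h) := by
  classical
  set K := joinBdry ℬ h with hK
  have hKf : K.faces = jbFaces ℬ := rfl
  have hf := all_faces_eq hX (fun F hF => card_jb ℬ hdis d hs hF) sX (ds_jb ℬ hdis d hs) hg
  have hmK : miss K = ℬ := missing_jb ℬ h hdis h2
  have hcount := count_missing hf (L + 1) (by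
    intro t ht t' ht' τ hτ τ' hτ'
    rw [missN_eq_filter, hmK, Finset.mem_filter] at hτ hτ'
    exact hone τ hτ.1 τ' hτ'.1 (by omega) (by omega))
  have hfib : ∀ s, ((miss X).filter fun τ => τ.card = s).card =
      (ℬ.filter fun B => B.card = s).card := by
    intro s
    rcases Nat.lt_or_ge (L + 1) s with hlt | hle
    · have e1 : (miss X).filter (fun τ => τ.card = s) = ∅ := by
        rw [Finset.filter_eq_empty_iff]
        intro τ hτ hc
        have := hmX τ (mem_miss.1 hτ).1 (mem_miss.1 hτ).2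
        omega
      have e2 : ℬ.filter (fun τ => τ.card = s) = ∅ := by
        rw [Finset.filter_eq_empty_iff]
        intro τ hτ hc
        have := hL τ hτ
        omega
      rw [e1, e2]
    · have := hcount s hle
      rw [missN_eq_filter, missN_eq_filter, hmK] at this
      exact this
  obtain ⟨e, he, hec⟩ := exists_bijOn_of_fibers (miss X) ℬ Finset.card Finset.card hfib
  have hcard : (miss X).card = ℬ.card := by
    have himg : (miss X).image e = ℬ := by
      ext B
      rw [Finset.mem_image]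
      constructor
      · rintro ⟨τ, hτ, rfl⟩
        exact he.mapsTo hτ
      · intro hB
        obtain ⟨τ, hτ, h1⟩ := he.surjOn hB
        exact ⟨τ, hτ, h1⟩
    rw [← himg, Finset.card_image_of_injOn he.injOn]
  have hsumcard : ∑ τ ∈ miss X, τ.card = ∑ B ∈ ℬ, B.card := by
    refine Finset.sum_bij (fun τ _ => e τ) (fun τ hτ => he.mapsTo hτ)
      (fun τ hτ τ' hτ' h1 => he.injOn hτ hτ' h1) (fun B hB => ?_)
      (fun τ hτ => (hec τ hτ).symm)
    obtain ⟨τ, hτ, h1⟩ := he.surjOn hB
    exact ⟨τ, hτ, h1⟩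
  have hsupcard : ∀ M : Finset (Finset ℕ), (M : Set (Finset ℕ)).PairwiseDisjoint id →
      (M.sup id).card = ∑ B ∈ M, B.card := by
    intro M hM
    rw [Finset.sup_eq_biUnion, Finset.card_biUnion hM]
    rfl
  have hn : (verts X).card = d + ℬ.card := by
    rw [← numFaces_one, hf 1, numFaces_one, verts_jb ℬ h h2, hsupcard ℬ hdis, hs]
  have hmd : ((miss X : Finset (Finset ℕ)) : Set (Finset ℕ)).PairwiseDisjoint id :=
    miss_disjoint hX (by rw [hcard, hn]; omega)
  have hV : (miss X).sup id = verts X := by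
    apply Finset.eq_of_subset_of_card_le
    · intro x hx
      obtain ⟨τ, hτ, hxτ⟩ := Finset.mem_sup.1 hx
      exact (mem_miss.1 hτ).1 hxτ
    · rw [hn, hsupcard _ hmd, hsumcard, hs]
  have hXf : X.faces = jbFaces (miss X) := by
    ext F
    rw [mem_jbFaces, hV]
    constructor
    · intro hF
      exact ⟨face_sub hF, (face_iff_miss (face_sub hF)).1 hF⟩
    · rintro ⟨h1, h3⟩
      exact (face_iff_miss h1).2 h3
  obtain ⟨φ, hφ, hφF⟩ := iso_jb (miss X) ℬ hmd hdis e he (fun τ hτ => hec τ hτ)
  refine ⟨φ, ?_, ?_⟩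
  · rw [verts_jb ℬ h h2, ← hV]
    exact hφ
  · intro F hF
    rw [hXf, hKf]
    exact hφF F (by rw [hV]; exact hF)

end Pool.Agent.R140.Sph
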