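import Mathlib

set_option autoImplicit false

/-!
# Homology spheres, missing faces, g-numbers (definitions), and the Dehn-Sommerville relations
-/

open Finset

namespace Pool.Agent.R140.Sph

/-- Finite (abstract) simplicial complexes with vertices in `ℕ`; the empty set is a face. -/
structure Cplx where
  /-- the faces -/
  faces : Finset (Finset ℕ)
  empty_mem : ∅ ∈ faces
  down : ∀ F ∈ faces, ∀ G ⊆ F, G ∈ faces

/-- The set of vertices (the elements of the faces). -/
def verts (X : Cplx) : Finset ℕ := X.faces.sup id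

/-- The faces of the link of `σ`. -/
def link (X : Finset (Finset ℕ)) (σ : Finset ℕ) : Finset (Finset ℕ) :=
  X.filter fun τ => Disjoint τ σ ∧ τ ∪ σ ∈ X

/-- The faces with `s` elements. -/
def level (X : Finset (Finset ℕ)) (s : ℕ) : Finset (Finset ℕ) := X.filter fun τ => τ.card = s

/-- The matrix of the simplicial boundary map, with coefficients in `k`, from the faces `τ` with
`s + 1` elements to the faces `ρ` with `s` elements: the entry for `τ = ρ ∪ {v}` is `-1` to the
number of elements of `ρ` which are smaller than `v`. -/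
def bdry (k : Type) [Field k] (X : Finset (Finset ℕ)) (s : ℕ) :
    Matrix ↥(level X s) ↥(level X (s + 1)) k :=
  fun ρ τ => if ρ.1 ⊆ τ.1 then (-1) ^ (ρ.1.filter fun w => ∀ v ∈ τ.1 \ ρ.1, w < v).card else 0

/-- The reduced Betti number of `X` over `k` in dimension `s - 1`: the number of faces with `s`
elements minus the ranks of the two boundary maps. -/
noncomputable def betti (k : Type) [Field k] (X : Finset (Finset ℕ)) (s : ℕ) : ℤ :=
  (level X s).card - (bdry k X s).rank - (if s = 0 then 0 else (bdry k X (s - 1)).rank : ℕ)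

/-- `X` has the reduced homology over `k` of a sphere of dimension `m - 1`. -/
def SphereHom (k : Type) [Field k] (X : Finset (Finset ℕ)) (m : ℕ) : Prop :=
  ∀ s, betti k X s = if s = m then 1 else 0

/-- `X` is pure of dimension `d - 1`: every face lies in a face with `d` elements, and there are no
larger ones. -/
def PureOf (d : ℕ) (X : Finset (Finset ℕ)) : Prop :=
  (∀ σ ∈ X, σ.card ≤ d) ∧ ∀ σ ∈ X, ∃ τ ∈ X, σ ⊆ τ ∧ τ.card = d

/-- `X` is a `k`-homology sphere of dimension `d - 1`. -/
def IsSphere (k : Type) [Field k] (d : ℕ) (X : Cplx) : Prop :=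
  PureOf d X.faces ∧ ∀ σ ∈ X.faces, SphereHom k (link X.faces σ) (d - σ.card)

/-- `τ` is a missing face of `X`. -/
def IsMissing (X : Cplx) (τ : Finset ℕ) : Prop := τ ∉ X.faces ∧ ∀ ρ ⊂ τ, ρ ∈ X.faces

/-- The class `S(i, d - 1)` of the `ℤ/2`-homology spheres of dimension `d - 1` all of whose missing
faces have dimension at most `i`, that is, at most `i + 1` elements. -/
def InS (i d : ℕ) (X : Cplx) : Prop :=
  IsSphere (ZMod 2) d X ∧ ∀ τ ⊆ verts X, IsMissing X τ → τ.card ≤ i + 1

/-- The number of faces with `j` elements, `f_{j-1}`. -/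
def numFaces (X : Finset (Finset ℕ)) (j : ℕ) : ℕ := (level X j).card

/-- The `h`-numbers of a complex of dimension `d - 1`:
`h_j = ∑_{i ≤ j} (-1)^(j-i) C(d-i, d-j) f_{i-1}`. -/
def hNum (d : ℕ) (X : Finset (Finset ℕ)) (j : ℕ) : ℤ :=
  ∑ i ∈ range (j + 1), (-1 : ℤ) ^ (j - i) * ((d - i).choose (d - j) : ℤ) * (numFaces X i : ℤ)

/-- The `g`-numbers of a complex of dimension `d - 1`: `g_0 = 1`, `g_j = h_j - h_{j-1}`. -/
def gNum (d : ℕ) (X : Finset (Finset ℕ)) (j : ℕ) : ℤ :=
  if j = 0 then 1 else hNum d X j - hNum d X (j - 1)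

/-- Complexes are isomorphic if a bijection between the vertex sets identifies the faces. -/
def Iso (X Y : Cplx) : Prop :=
  ∃ φ : ℕ → ℕ, Set.BijOn φ (verts X) (verts Y) ∧
    ∀ F ⊆ verts X, (F ∈ X.faces ↔ F.image φ ∈ Y.faces)

/-! ### Basic facts -/

lemma mem_verts {X : Cplx} {v : ℕ} : v ∈ verts X ↔ {v} ∈ X.faces := by
  unfold verts
  rw [Finset.mem_sup]
  constructor
  · rintro ⟨F, hF, hv⟩
    exact X.down F hF _ (Finset.singleton_subset_iff.2 hv)
  · intro h
    exact ⟨{v}, h, by simp⟩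

lemma face_sub {X : Cplx} {F : Finset ℕ} (hF : F ∈ X.faces) : F ⊆ verts X := fun v hv =>
  mem_verts.2 (X.down F hF _ (Finset.singleton_subset_iff.2 hv))

/-- reduced Euler characteristic from the Betti numbers -/
lemma euler_of_sphereHom (k : Type) [Field k] (X : Finset (Finset ℕ)) (m : ℕ)
    (h : SphereHom k X m) : ∑ F ∈ X, (-1 : ℤ) ^ F.card = (-1) ^ m := by
  classical
  -- a bound for the sizes
  obtain ⟨N, hN⟩ : ∃ N, ∀ F ∈ X, F.card < N := ⟨X.sup Finset.card + 1, fun F hF =>
    Nat.lt_succ_of_le (Finset.le_sup hF)⟩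
  have hN' : ∀ F ∈ X, F.card < N + m + 1 := fun F hF => by have := hN F hF; omega
  set M := N + m + 1 with hM
  have hlev : ∀ s, M ≤ s → level X s = ∅ := by
    intro s hs
    unfold level
    rw [Finset.filter_eq_empty_iff]
    intro F hF hc
    have := hN' F hF
    omega
  have h1 : ∑ F ∈ X, (-1 : ℤ) ^ F.card = ∑ s ∈ range M, (-1 : ℤ) ^ s * (level X s).card := by
    rw [← Finset.sum_fiberwise_of_maps_to (s := X) (t := range M) (g := Finset.card)
      (fun F hF => Finset.mem_range.2 (hN' F hF))]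
    refine Finset.sum_congr rfl fun s _ => ?_
    rw [Finset.sum_congr rfl (g := fun _ => (-1 : ℤ) ^ s)
      (fun F hF => by rw [(Finset.mem_filter.1 hF).2])]
    rw [Finset.sum_const, nsmul_eq_mul, mul_comm]
    rfl
  have h2 : ∀ n, ∑ s ∈ range (n + 1), (-1 : ℤ) ^ s * betti k X s =
      ∑ s ∈ range (n + 1), (-1 : ℤ) ^ s * (level X s).card - (-1) ^ n * (bdry k X n).rank := by
    intro n
    induction n with
    | zero => simp [betti]
    | succ n ih =>
      rw [Finset.sum_range_succ, ih, Finset.sum_range_succ _ (n + 1)]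
      unfold betti
      rw [if_neg (Nat.succ_ne_zero n), Nat.add_sub_cancel]
      push_cast
      ring
  have h3 : ∑ s ∈ range M, (-1 : ℤ) ^ s * betti k X s = (-1) ^ m := by
    rw [Finset.sum_congr rfl (g := fun s => if s = m then (-1 : ℤ) ^ m else 0)]
    · rw [Finset.sum_ite_eq' (range M) m]
      rw [if_pos (Finset.mem_range.2 (by omega))]
    · intro s _
      rw [h s]
      split_ifs with h
      · rw [h, mul_one]
      · rw [mul_zero]
  have h4 := h2 (N + m)
  have h5 : (bdry k X (N + m)).rank = 0 := by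
    have : IsEmpty ↥(level X (N + m + 1)) := by
      rw [hlev (N + m + 1) (by omega)]
      exact ⟨fun x => Finset.notMem_empty _ x.2⟩
    have h6 := Matrix.rank_le_card_width (bdry k X (N + m))
    rw [Fintype.card_eq_zero] at h6
    omega
  rw [h5] at h4
  simp only [Nat.cast_zero, mul_zero, sub_zero] at h4
  rw [h1, ← h4, h3]

/-- the Euler relations of a homology sphere -/
def Eulerian (d : ℕ) (X : Cplx) : Prop :=
  ∀ σ ∈ X.faces, ∑ F ∈ X.faces.filter (fun F => σ ⊆ F), (-1 : ℤ) ^ F.card = (-1) ^ d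

lemma eulerian_of_sphere {k : Type} [Field k] {d : ℕ} {X : Cplx} (h : IsSphere k d X) :
    Eulerian d X := by
  intro σ hσ
  have h1 := euler_of_sphereHom k _ _ (h.2 σ hσ)
  have hc := h.1.1 σ hσ
  have h2 : ∑ F ∈ X.faces.filter (fun F => σ ⊆ F), (-1 : ℤ) ^ F.card =
      ∑ G ∈ link X.faces σ, (-1 : ℤ) ^ (G.card + σ.card) := by
    symm
    refine Finset.sum_bij' (fun G _ => G ∪ σ) (fun F _ => F \ σ) ?_ ?_ ?_ ?_ ?_
    · intro G hG
      unfold link at hG
      rw [Finset.mem_filter] at hG ⊢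
      exact ⟨hG.2.2, Finset.subset_union_right⟩
    · intro F hF
      unfold link
      rw [Finset.mem_filter] at hF ⊢
      refine ⟨X.down F hF.1 _ Finset.sdiff_subset, Finset.sdiff_disjoint, ?_⟩
      rw [Finset.sdiff_union_of_subset hF.2]
      exact hF.1
    · intro G hG
      unfold link at hG
      rw [Finset.mem_filter] at hG
      rw [Finset.union_sdiff_right, Finset.sdiff_eq_self_of_disjoint hG.2.1]
    · intro F hF
      rw [Finset.mem_filter] at hF
      exact Finset.sdiff_union_of_subset hF.2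
    · intro G hG
      unfold link at hG
      rw [Finset.mem_filter] at hG
      rw [Finset.card_union_of_disjoint hG.2.1]
  rw [h2]
  have h3 : ∑ G ∈ link X.faces σ, (-1 : ℤ) ^ (G.card + σ.card) =
      (∑ G ∈ link X.faces σ, (-1 : ℤ) ^ G.card) * (-1) ^ σ.card := by
    rw [Finset.sum_mul]
    exact Finset.sum_congr rfl fun G _ => pow_add _ _ _
  rw [h3, h1, ← pow_add, Nat.sub_add_cancel hc]

open Polynomial

/-- the face polynomial `∑ x^|F|` -/
noncomputable def fPoly (X : Finset (Finset ℕ)) : ℤ[X] := ∑ F ∈ X, (Polynomial.X : ℤ[X]) ^ F.card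

lemma fPoly_coeff (X : Finset (Finset ℕ)) (j : ℕ) : (fPoly X).coeff j = numFaces X j := by
  unfold fPoly numFaces level
  rw [Polynomial.finsetSum_coeff]
  simp only [Polynomial.coeff_X_pow]
  rw [Finset.card_filter]
  push_cast
  refine Finset.sum_congr rfl fun F _ => ?_
  by_cases h : F.card = j
  · rw [if_pos h, if_pos h.symm]
  · rw [if_neg h, if_neg (fun h' => h h'.symm)]

/-- Dehn-Sommerville: `f(-1-x) = (-1)^d f(x)` -/
lemma dehnSommerville {d : ℕ} {X : Cplx} (h : Eulerian d X) :
    (fPoly X.faces).comp (-1 - Polynomial.X) = (-1) ^ d * fPoly X.faces := by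
  classical
  unfold fPoly
  rw [show (∑ F ∈ X.faces, (Polynomial.X : ℤ[X]) ^ F.card).comp (-1 - Polynomial.X) = ∑ F ∈ X.faces, ((Polynomial.X : ℤ[X]) ^ F.card).comp (-1 - Polynomial.X) from map_sum (Polynomial.compRingHom (-1 - Polynomial.X : ℤ[X])) _ _]
  simp only [Polynomial.X_pow_comp]
  have h1 : ∀ F : Finset ℕ, (-1 - Polynomial.X : ℤ[X]) ^ F.card =
      ∑ G ∈ F.powerset, (-1) ^ F.card * Polynomial.X ^ G.card := by
    intro F
    rw [← Finset.mul_sum]
    have h2 := Finset.sum_pow_mul_eq_add_pow (Polynomial.X : ℤ[X]) 1 F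
    simp only [one_pow, mul_one] at h2
    rw [h2, ← mul_pow]
    congr 1
    ring
  rw [Finset.sum_congr rfl (fun F _ => h1 F)]
  rw [Finset.sum_sigma']
  have h2 : ∑ x ∈ X.faces.sigma fun F => F.powerset,
      ((-1) ^ x.1.card * Polynomial.X ^ x.2.card : ℤ[X]) =
      ∑ G ∈ X.faces, ∑ F ∈ X.faces.filter (fun F => G ⊆ F),
        (-1) ^ F.card * Polynomial.X ^ G.card := by
    rw [Finset.sum_sigma']
    refine Finset.sum_bij' (fun x _ => ⟨x.2, x.1⟩) (fun x _ => ⟨x.2, x.1⟩) ?_ ?_ ?_ ?_ ?_
    · rintro ⟨F, G⟩ hx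
      simp only [Finset.mem_sigma, Finset.mem_powerset, Finset.mem_filter] at hx ⊢
      exact ⟨X.down F hx.1 G hx.2, hx.1, hx.2⟩
    · rintro ⟨F, G⟩ hx
      simp only [Finset.mem_sigma, Finset.mem_powerset, Finset.mem_filter] at hx ⊢
      exact ⟨hx.2.1, hx.2.2⟩
    · intro x _; rfl
    · intro x _; rfl
    · intro x _; rfl
  rw [h2, Finset.mul_sum]
  refine Finset.sum_congr rfl fun G hG => ?_
  rw [← Finset.sum_mul]
  congr 1
  have := congrArg (Int.castRingHom ℤ[X]) (h G hG)
  rw [map_sum] at this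
  simpa using this

/-- a polynomial of degree `≤ d` with the symmetry of the Dehn-Sommerville relations and vanishing
lower half is zero -/
lemma eq_zero_of_symm {d : ℕ} {D : ℤ[X]} (hd : D.natDegree ≤ d)
    (hs : D.comp (-1 - Polynomial.X) = (-1) ^ d * D) (h0 : ∀ j ≤ d / 2, D.coeff j = 0) : D = 0 := by
  set m := d / 2 + 1 with hm
  have h1 : (Polynomial.X : ℤ[X]) ^ m ∣ D := by
    rw [Polynomial.X_pow_dvd_iff]
    intro j hj
    exact h0 j (by omega)
  obtain ⟨E, hE⟩ := h1
  have h2 : ((1 : ℤ[X]) + Polynomial.X) ^ m ∣ D := by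
    have h3 : (-1 - Polynomial.X : ℤ[X]) ^ m ∣ D.comp (-1 - Polynomial.X) := by
      rw [hE, Polynomial.mul_comp, Polynomial.X_pow_comp]
      exact Dvd.intro _ rfl
    rw [hs] at h3
    have h4 : (-1 - Polynomial.X : ℤ[X]) = (-1) * (1 + Polynomial.X) := by ring
    rw [h4, mul_pow] at h3
    have h5 : (1 + Polynomial.X : ℤ[X]) ^ m ∣ (-1) ^ d * D := (Dvd.intro_left _ rfl).trans h3
    have h6 : D = (-1) ^ d * ((-1) ^ d * D) := by
      rw [← mul_assoc, ← pow_add, ← two_mul, pow_mul]
      simp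
    rw [h6]
    exact Dvd.dvd.mul_left h5 _
  have hco : IsCoprime ((Polynomial.X : ℤ[X]) ^ m) ((1 + Polynomial.X) ^ m) := by
    apply IsCoprime.pow
    exact ⟨-1, 1, by ring⟩
  have h7 : (Polynomial.X : ℤ[X]) ^ m * (1 + Polynomial.X) ^ m ∣ D :=
    hco.mul_dvd (Dvd.intro _ hE.symm) h2
  refine Polynomial.eq_zero_of_dvd_of_natDegree_lt h7 ?_
  have hm1 : ((Polynomial.X : ℤ[X]) ^ m).Monic := Polynomial.monic_X_pow m
  have hm2 : ((1 + Polynomial.X : ℤ[X])).Monic := by
    rw [add_comm]
    exact Polynomial.monic_X_add_C 1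
  rw [Polynomial.Monic.natDegree_mul hm1 (hm2.pow m), Polynomial.natDegree_X_pow,
    Polynomial.Monic.natDegree_pow hm2]
  have : (1 + Polynomial.X : ℤ[X]).natDegree = 1 := by
    rw [add_comm]
    exact Polynomial.natDegree_X_add_C 1
  rw [this]
  omega

/-- equal `g`-numbers up to `d / 2` give equal face numbers up to `d / 2` -/
lemma faces_eq_of_g {d : ℕ} {X Y : Finset (Finset ℕ)} (h0 : numFaces X 0 = numFaces Y 0)
    (hg : ∀ j ≤ d / 2, gNum d X j = gNum d Y j) : ∀ j ≤ d / 2, numFaces X j = numFaces Y j := by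
  have hh : ∀ j ≤ d / 2, hNum d X j = hNum d Y j := by
    intro j
    induction j with
    | zero =>
      intro _
      unfold hNum
      simp [h0]
    | succ j ih =>
      intro hj
      have h1 := hg (j + 1) hj
      unfold gNum at h1
      rw [if_neg (Nat.succ_ne_zero j), if_neg (Nat.succ_ne_zero j), Nat.add_sub_cancel] at h1
      have h2 := ih (by omega)
      linarith
  intro j
  induction j using Nat.strong_induction_on with
  | _ j ih =>
    intro hj
    have h1 := hh j hj
    unfold hNum at h1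
    rw [Finset.sum_range_succ, Finset.sum_range_succ] at h1
    have h2 : ∑ i ∈ range j, (-1 : ℤ) ^ (j - i) * ((d - i).choose (d - j) : ℤ) * (numFaces X i : ℤ)
        = ∑ i ∈ range j, (-1 : ℤ) ^ (j - i) * ((d - i).choose (d - j) : ℤ) *
          (numFaces Y i : ℤ) := by
      refine Finset.sum_congr rfl fun i hi => ?_
      rw [Finset.mem_range] at hi
      rw [ih i hi (by omega)]
    rw [h2] at h1
    have h3 := add_left_cancel h1
    simp only [Nat.sub_self, pow_zero, Nat.choose_self, Nat.cast_one, one_mul] at h3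
    exact_mod_cast h3

lemma numFaces_zero (X : Cplx) : numFaces X.faces 0 = 1 := by
  unfold numFaces level
  have : X.faces.filter (fun τ => τ.card = 0) = {∅} := by
    ext F
    simp only [Finset.mem_filter, Finset.card_eq_zero, Finset.mem_singleton]
    constructor
    · exact fun h => h.2
    · rintro rfl
      exact ⟨X.empty_mem, rfl⟩
  rw [this, Finset.card_singleton]

lemma numFaces_one (X : Cplx) : numFaces X.faces 1 = (verts X).card := by
  unfold numFaces level
  rw [← Finset.card_image_of_injective (verts X) (Finset.singleton_injective)]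
  congr 1
  ext F
  simp only [Finset.mem_filter, Finset.mem_image]
  constructor
  · rintro ⟨h1, h2⟩
    obtain ⟨v, rfl⟩ := Finset.card_eq_one.1 h2
    exact ⟨v, mem_verts.2 h1, rfl⟩
  · rintro ⟨v, hv, rfl⟩
    exact ⟨mem_verts.1 hv, Finset.card_singleton v⟩

/-- two complexes of dimension at most `d - 1` with Dehn-Sommerville symmetry and the same
`g`-numbers have the same face numbers -/
lemma all_faces_eq {d : ℕ} {X Y : Cplx} (hX : ∀ F ∈ X.faces, F.card ≤ d)
    (hY : ∀ F ∈ Y.faces, F.card ≤ d)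
    (sX : (fPoly X.faces).comp (-1 - Polynomial.X) = (-1) ^ d * fPoly X.faces)
    (sY : (fPoly Y.faces).comp (-1 - Polynomial.X) = (-1) ^ d * fPoly Y.faces)
    (hg : ∀ j ≤ d / 2, gNum d X.faces j = gNum d Y.faces j) :
    ∀ j, numFaces X.faces j = numFaces Y.faces j := by
  have h1 := faces_eq_of_g ((numFaces_zero X).trans (numFaces_zero Y).symm) hg
  have hdeg : ∀ Z : Cplx, (∀ F ∈ Z.faces, F.card ≤ d) → (fPoly Z.faces).natDegree ≤ d := by
    intro Z hZ
    unfold fPoly
    refine Polynomial.natDegree_sum_le_of_forall_le _ _ fun F hF => ?_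
    rw [Polynomial.natDegree_X_pow]
    exact hZ F hF
  have h2 : fPoly X.faces - fPoly Y.faces = 0 := by
    apply eq_zero_of_symm (d := d)
    · exact (Polynomial.natDegree_sub_le _ _).trans (max_le (hdeg X hX) (hdeg Y hY))
    · rw [Polynomial.sub_comp, sX, sY]
      ring
    · intro j hj
      rw [Polynomial.coeff_sub, fPoly_coeff, fPoly_coeff, h1 j hj, sub_self]
  intro j
  have h3 := congrArg (fun p => Polynomial.coeff p j) h2
  simp only [Polynomial.coeff_sub, fPoly_coeff, Polynomial.coeff_zero] at h3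
  have h4 : (numFaces X.faces j : ℤ) = numFaces Y.faces j := sub_eq_zero.1 h3
  exact_mod_cast h4

end Pool.Agent.R140.Sph
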